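import Pool.Agent.Lib_helper90.Perc.Defs

/-!
# Automorphisms of the lattice `ℤ^d`

Every automorphism of the graph `ℤ^d` is a signed permutation of the coordinates
followed by a translation.
-/

set_option autoImplicit false

namespace Pool.Agent.Lib_helper90.Perc

variable {d : ℕ}

/-- integer vectors of Euclidean norm one -/
def IsU (u : Fin d → ℤ) : Prop := u ⬝ᵥ u = 1

lemma adj_iff (x y : Fin d → ℤ) : (latticeGraph d).Adj x y ↔ IsU (y - x) := by
  unfold latticeGraph IsU dotProduct
  simp only [Pi.sub_apply]
  constructor <;> intro h <;> rw [← h] <;> exact Finset.sum_congr rfl fun i _ => by ring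

lemma isU_neg {u : Fin d → ℤ} (h : IsU u) : IsU (-u) := by
  unfold IsU at *
  rw [neg_dotProduct, dotProduct_neg, neg_neg]
  exact h

lemma IsU.dot_cases {a b : Fin d → ℤ} (ha : IsU a) (hb : IsU b) :
    a ⬝ᵥ b = 1 ∧ a = b ∨ a ⬝ᵥ b = 0 ∨ a ⬝ᵥ b = -1 ∧ a = -b := by
  unfold IsU at *
  have h1 : (a - b) ⬝ᵥ (a - b) = 2 - 2 * (a ⬝ᵥ b) := by
    rw [sub_dotProduct, dotProduct_sub, dotProduct_sub, ha, hb, dotProduct_comm b a]; ring
  have h2 : (a + b) ⬝ᵥ (a + b) = 2 + 2 * (a ⬝ᵥ b) := by
    rw [add_dotProduct, dotProduct_add, dotProduct_add, ha, hb, dotProduct_comm b a]; ring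
  have h3 : 0 ≤ (a - b) ⬝ᵥ (a - b) := Finset.sum_nonneg fun i _ => mul_self_nonneg _
  have h4 : 0 ≤ (a + b) ⬝ᵥ (a + b) := Finset.sum_nonneg fun i _ => mul_self_nonneg _
  have h5 : a ⬝ᵥ b = 1 ∨ a ⬝ᵥ b = 0 ∨ a ⬝ᵥ b = -1 := by omega
  rcases h5 with h | h | h
  · left
    refine ⟨h, ?_⟩
    rw [h] at h1
    have : a - b = 0 := dotProduct_self_eq_zero.1 (by rw [h1]; norm_num)
    exact sub_eq_zero.1 this
  · right; left; exact h
  · right; right
    refine ⟨h, ?_⟩
    rw [h] at h2
    have : a + b = 0 := dotProduct_self_eq_zero.1 (by rw [h2]; norm_num)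
    exact eq_neg_of_add_eq_zero_left this

/-- the key rigidity statement about non-degenerate squares -/
lemma square_rigid {a b c c' : Fin d → ℤ} (ha : IsU a) (hb : IsU b) (hc : IsU c) (hc' : IsU c')
    (hab : a ≠ b) (hne : a + c ≠ 0) (heq : a + c = b + c') : c' = a ∧ b ≠ -a := by
  have hab' : a ⬝ᵥ b ≠ 1 := by
    intro h
    rcases ha.dot_cases hb with h' | h' | h'
    · exact hab h'.2
    · omega
    · omega
  have hac : a ⬝ᵥ c ≠ -1 := by
    intro h
    rcases ha.dot_cases hc with h' | h' | h'
    · omega
    · omega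
    · exact hne (by rw [h'.2]; simp)
  have haa : a ⬝ᵥ a = 1 := ha
  have hbb : b ⬝ᵥ b = 1 := hb
  -- inner product with a
  have e1 : a ⬝ᵥ a + a ⬝ᵥ c = a ⬝ᵥ b + a ⬝ᵥ c' := by
    rw [← dotProduct_add, ← dotProduct_add, heq]
  have d1 := ha.dot_cases hb
  have d2 := ha.dot_cases hc
  have d3 := ha.dot_cases hc'
  have hc'a : a ⬝ᵥ c' = 1 ∧ a = c' := by
    rcases d3 with h | h | h
    · exact h
    · exfalso; rcases d1 with h1 | h1 | h1 <;> rcases d2 with h2 | h2 | h2 <;> omega
    · exfalso; rcases d1 with h1 | h1 | h1 <;> rcases d2 with h2 | h2 | h2 <;> omega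
  refine ⟨hc'a.2.symm, ?_⟩
  intro hb'
  have : a ⬝ᵥ b = -1 := by rw [hb', dotProduct_neg, haa]
  rcases d2 with h2 | h2 | h2 <;> omega

/-- displacement of an automorphism -/
def disp (φ : latticeGraph d ≃g latticeGraph d) (x u : Fin d → ℤ) : Fin d → ℤ :=
  φ (x + u) - φ x

lemma disp_isU (φ : latticeGraph d ≃g latticeGraph d) (x : Fin d → ℤ) {u : Fin d → ℤ}
    (hu : IsU u) : IsU (disp φ x u) := by
  have : (latticeGraph d).Adj x (x + u) := by
    rw [adj_iff]; simpa using hu
  exact (adj_iff _ _).1 (φ.map_adj_iff.2 this)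

lemma disp_inj (φ : latticeGraph d ≃g latticeGraph d) (x : Fin d → ℤ) {u v : Fin d → ℤ}
    (h : disp φ x u = disp φ x v) : u = v := by
  unfold disp at h
  have := φ.injective (sub_left_injective h)
  simpa using this

lemma disp_square (φ : latticeGraph d ≃g latticeGraph d) (x : Fin d → ℤ) {u v : Fin d → ℤ}
    (hu : IsU u) (hv : IsU v) (h1 : v ≠ u) (h2 : v ≠ -u) :
    disp φ (x + v) u = disp φ x u ∧ disp φ x v ≠ - disp φ x u := by
  have heq : disp φ x u + disp φ (x + u) v = disp φ x v + disp φ (x + v) u := by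
    unfold disp
    rw [show x + u + v = x + v + u by ring]
    ring
  have hne : disp φ x u + disp φ (x + u) v ≠ 0 := by
    unfold disp
    intro h
    have h3 : φ (x + u + v) = φ x := by
      have : φ (x + u) - φ x + (φ (x + u + v) - φ (x + u)) = φ (x + u + v) - φ x := by ring
      rw [this] at h
      exact sub_eq_zero.1 h
    have h4 := φ.injective h3
    apply h2
    have : u + v = 0 := by
      have h5 : x + (u + v) = x + 0 := by rw [← add_assoc, h4, add_zero]
      exact add_left_cancel h5
    exact eq_neg_of_add_eq_zero_right this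
  exact square_rigid (disp_isU φ x hu) (disp_isU φ x hv) (disp_isU φ (x + u) hv)
    (disp_isU φ (x + v) hu) (fun h => h1 (disp_inj φ x h).symm) hne heq

lemma disp_neg (φ : latticeGraph d ≃g latticeGraph d) (x : Fin d → ℤ) {u : Fin d → ℤ}
    (hu : IsU u) : disp φ x (-u) = - disp φ x u := by
  -- the vertex opposite to `φ (x+u)` is a neighbour of `φ x`
  obtain ⟨y, hy⟩ := φ.surjective (φ x - disp φ x u)
  have hU : IsU (y - x) := by
    have h1 : (latticeGraph d).Adj (φ x) (φ y) := by
      rw [adj_iff, hy]
      have : φ x - disp φ x u - φ x = - disp φ x u := by ring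
      rw [this]
      exact isU_neg (disp_isU φ x hu)
    exact (adj_iff _ _).1 (φ.map_adj_iff.1 h1)
  have hw : disp φ x (y - x) = - disp φ x u := by
    unfold disp
    rw [show x + (y - x) = y by ring, hy]
    unfold disp
    ring
  have hne : y - x ≠ u := by
    intro h
    rw [h] at hw
    have h0 : disp φ x u = 0 := by
      funext i
      have := congrFun hw i
      simp only [Pi.neg_apply] at this
      simp only [Pi.zero_apply]
      omega
    have := disp_isU φ x hu
    unfold IsU at this
    rw [h0] at this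
    simp at this
  by_cases h : y - x = -u
  · rw [← h, hw]
  · exact absurd hw (disp_square φ x hu hU hne h).2

lemma disp_const (φ : latticeGraph d ≃g latticeGraph d) (x : Fin d → ℤ) {u v : Fin d → ℤ}
    (hu : IsU u) (hv : IsU v) : disp φ (x + v) u = disp φ x u := by
  by_cases h1 : v = u
  · subst h1
    have := disp_neg φ (x + v) hu
    have h2 : disp φ (x + v) (-v) = - disp φ x v := by
      unfold disp
      rw [show x + v + -v = x by ring]
      ring
    rw [h2] at this
    exact (neg_injective this).symm
  · by_cases h2 : v = -u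
    · subst h2
      have := disp_neg φ x hu
      have h3 : disp φ (x + -u) u = - disp φ x (-u) := by
        unfold disp
        rw [show x + -u + u = x by ring]
        ring
      rw [h3, this, neg_neg]
    · exact (disp_square φ x hu hv h1 h2).1

lemma isU_single (i : Fin d) : IsU (Pi.single i (1 : ℤ)) := by
  unfold IsU
  simp

lemma isU_iff {u : Fin d → ℤ} (hu : IsU u) :
    ∃ (i : Fin d) (s : ℤ), (s = 1 ∨ s = -1) ∧ u = Pi.single i s := by
  unfold IsU at hu
  have hne : u ≠ 0 := by
    intro h
    rw [h] at hu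
    simp at hu
  obtain ⟨i, hi⟩ := Function.ne_iff.1 hne
  have hi' : u i ≠ 0 := hi
  have h1 : u i * u i + ∑ j ∈ Finset.univ.erase i, u j * u j = 1 := by
    rw [← hu]
    unfold dotProduct
    exact Finset.add_sum_erase Finset.univ (fun j => u j * u j) (Finset.mem_univ i)
  have h2 : 0 ≤ ∑ j ∈ Finset.univ.erase i, u j * u j :=
    Finset.sum_nonneg fun j _ => mul_self_nonneg _
  have h3 : 1 ≤ u i * u i := by
    have := mul_self_pos.2 hi'
    omega
  have h4 : ∑ j ∈ Finset.univ.erase i, u j * u j = 0 := by omega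
  have h5 : u i * u i = 1 := by omega
  have h6 : ∀ j, j ≠ i → u j = 0 := by
    intro j hj
    have := (Finset.sum_eq_zero_iff_of_nonneg (fun j _ => mul_self_nonneg (u j))).1 h4 j
      (Finset.mem_erase.2 ⟨hj, Finset.mem_univ j⟩)
    exact mul_self_eq_zero.1 this
  refine ⟨i, u i, mul_self_eq_one_iff.1 h5, ?_⟩
  funext j
  by_cases hj : j = i
  · subst hj; simp
  · rw [h6 j hj, Pi.single_eq_of_ne hj]

/-- Classification of the automorphisms of `ℤ^d`. -/
theorem aut_classification (φ : latticeGraph d ≃g latticeGraph d) :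
    ∃ (σ : Equiv.Perm (Fin d)) (s : Fin d → ℤ), (∀ i, s i = 1 ∨ s i = -1) ∧
      ∀ x i, φ x (σ i) = s i * x i + φ 0 (σ i) := by
  classical
  -- displacement of the basis vectors
  have hex : ∀ i : Fin d, ∃ (j : Fin d) (s : ℤ), (s = 1 ∨ s = -1) ∧
      disp φ 0 (Pi.single i 1) = Pi.single j s := fun i => isU_iff (disp_isU φ 0 (isU_single i))
  choose σ s hs hσ using hex
  have hinj : Function.Injective σ := by
    intro i j hij
    by_contra hne
    rcases hs i with hi | hi <;> rcases hs j with hj | hj
    · have : disp φ 0 (Pi.single i 1) = disp φ 0 (Pi.single j 1) := by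
        rw [hσ i, hσ j, hij, hi, hj]
      have h := disp_inj φ 0 this
      have h' := congrFun h i
      rw [Pi.single_eq_same, Pi.single_eq_of_ne hne] at h'
      omega
    · have : disp φ 0 (Pi.single i 1) = disp φ 0 (-Pi.single j 1) := by
        rw [disp_neg φ 0 (isU_single j), hσ i, hσ j, hij, hi, hj, Pi.single_neg, neg_neg]
      have h := disp_inj φ 0 this
      have h' := congrFun h i
      rw [Pi.single_eq_same, Pi.neg_apply, Pi.single_eq_of_ne hne] at h'
      omega
    · have : disp φ 0 (Pi.single i 1) = disp φ 0 (-Pi.single j 1) := by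
        rw [disp_neg φ 0 (isU_single j), hσ i, hσ j, hij, hi, hj, Pi.single_neg]
      have h := disp_inj φ 0 this
      have h' := congrFun h i
      rw [Pi.single_eq_same, Pi.neg_apply, Pi.single_eq_of_ne hne] at h'
      omega
    · have : disp φ 0 (Pi.single i 1) = disp φ 0 (Pi.single j 1) := by
        rw [hσ i, hσ j, hij, hi, hj]
      have h := disp_inj φ 0 this
      have h' := congrFun h i
      rw [Pi.single_eq_same, Pi.single_eq_of_ne hne] at h'
      omega
  have hbij : Function.Bijective σ := (Finite.injective_iff_bijective).1 hinj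
  -- the displacement does not depend on the base point
  have key : ∀ (x u : Fin d → ℤ), IsU u → disp φ x u = disp φ 0 u := by
    intro x
    -- go from 0 to x by unit steps
    have step : ∀ (y : Fin d → ℤ) (i : Fin d) (k : ℤ) (u : Fin d → ℤ), IsU u →
        disp φ (y + Pi.single i k) u = disp φ y u := by
      intro y i k u hu
      induction k using Int.induction_on with
      | zero => simp
      | succ k ih =>
        rw [Pi.single_add, ← add_assoc, disp_const φ _ hu (isU_single i), ih]
      | pred k ih =>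
        have h1 : disp φ (y + Pi.single i (-(k:ℤ) - 1) + Pi.single i 1) u =
            disp φ (y + Pi.single i (-(k:ℤ) - 1)) u := disp_const φ _ hu (isU_single i)
        rw [← h1, add_assoc, ← Pi.single_add, sub_add_cancel, ih]
    intro u hu
    have hsum : ∀ s : Finset (Fin d), disp φ (∑ i ∈ s, Pi.single i (x i)) u = disp φ 0 u := by
      intro s
      induction s using Finset.induction_on with
      | empty => simp
      | insert i s hi ih =>
        rw [Finset.sum_insert hi, add_comm, step _ i (x i) u hu, ih]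
    have hx : ∑ i, Pi.single i (x i) = x := by
      simpa using Finset.univ_sum_single x
    rw [← hsum Finset.univ, hx]
  -- value of φ
  have step2 : ∀ (y : Fin d → ℤ) (i : Fin d) (k : ℤ),
      φ (y + Pi.single i k) = φ y + Pi.single (σ i) (s i * k) := by
    intro y i k
    have hd : ∀ z : Fin d → ℤ, φ (z + Pi.single i 1) = φ z + Pi.single (σ i) (s i) := by
      intro z
      have := key z (Pi.single i 1) (isU_single i)
      rw [hσ i] at this
      unfold disp at this
      rw [← this]
      ring
    induction k using Int.induction_on with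
    | zero => simp
    | succ k ih =>
      rw [Pi.single_add, ← add_assoc, hd, ih, mul_add, Pi.single_add, mul_one, add_assoc]
    | pred k ih =>
      have h1 := hd (y + Pi.single i (-(k:ℤ) - 1))
      rw [add_assoc, ← Pi.single_add, sub_add_cancel, ih] at h1
      have h2 : φ (y + Pi.single i (-(k:ℤ) - 1)) =
          φ y + Pi.single (σ i) (s i * -(k:ℤ)) - Pi.single (σ i) (s i) := by
        rw [h1]; ring
      rw [h2, mul_sub, mul_one, Pi.single_sub]
      ring
  refine ⟨Equiv.ofBijective σ hbij, s, hs, ?_⟩
  intro x i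
  have hsum : ∀ t : Finset (Fin d), φ (∑ j ∈ t, Pi.single j (x j)) =
      φ 0 + ∑ j ∈ t, Pi.single (σ j) (s j * x j) := by
    intro t
    induction t using Finset.induction_on with
    | empty => simp
    | insert j t hj ih =>
      rw [Finset.sum_insert hj, add_comm, step2, ih, Finset.sum_insert hj, add_assoc]
      congr 1
      exact add_comm _ _
  have hx : ∑ j, Pi.single j (x j) = x := by
    simpa using Finset.univ_sum_single x
  have h := hsum Finset.univ
  rw [hx] at h
  rw [h, Pi.add_apply, Finset.sum_apply, Equiv.ofBijective_apply]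
  rw [Finset.sum_eq_single i]
  · rw [Pi.single_eq_same]; ring
  · intro j _ hj
    exact Pi.single_eq_of_ne (fun h => hj (hinj h.symm)) _
  · intro h; exact absurd (Finset.mem_univ i) h

end Pool.Agent.Lib_helper90.Perc
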