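import Mathlib

/-!
# Bond percolation on the integer lattice: definitions

These are the definitions used by the hand-in under `MP_cc1c4a_pr`.
-/

set_option autoImplicit false

open MeasureTheory ProbabilityTheory

namespace Pool.Agent.Lib_helper90.Perc

/-- The graph `ℤ^d`: the vertices are the points of `ℤ^d`, and two of them are adjacent
when their Euclidean distance is `1` (equivalently, the squared distance is `1`). -/
def latticeGraph (d : ℕ) : SimpleGraph (Fin d → ℤ) where
  Adj x y := ∑ i, (x i - y i) ^ 2 = 1
  symm := ⟨fun x y h => by
    rw [← h]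
    exact Finset.sum_congr rfl fun i _ => by ring⟩
  loopless := ⟨fun x h => by simp at h⟩

/-- The edge set `E` of the lattice `ℤ^d`. -/
abbrev Edge (d : ℕ) : Type := (latticeGraph d).edgeSet

/-- A bond configuration: an element of `{0,1}^E`, where `true` means open. It carries
the product `σ`-algebra. The law of a bond percolation is a probability
measure on `Config d`. -/
abbrev Config (d : ℕ) : Type := Edge d → Bool

/-- The subgraph of `ℤ^d` formed by the open edges of a configuration. -/
def openGraph {d : ℕ} (ω : Config d) : SimpleGraph (Fin d → ℤ) where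
  Adj x y := ∃ h : (latticeGraph d).Adj x y, ω ⟨s(x, y), h⟩ = true
  symm := ⟨fun x y h => by
    obtain ⟨h, hω⟩ := h
    refine ⟨h.symm, ?_⟩
    rw [← hω]
    congr 2
    exact Sym2.eq_swap⟩
  loopless := ⟨fun x h => by
    obtain ⟨h, _⟩ := h
    exact (latticeGraph d).loopless.irrefl x h⟩

/-- The configuration has an infinite cluster, i.e. an infinite connected component
of the subgraph of open edges. -/
def HasInfiniteCluster {d : ℕ} (ω : Config d) : Prop :=
  ∃ C : (openGraph ω).ConnectedComponent, C.supp.Infinite

/-- Invariance of the law under every automorphism of the graph `ℤ^d`. -/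
def IsInvariant {d : ℕ} (μ : Measure (Config d)) : Prop :=
  ∀ φ : latticeGraph d ≃g latticeGraph d,
    μ.map (fun (ω : Config d) (e : Edge d) => ω (φ.mapEdgeSet e)) = μ

/-- The `σ`-algebra on configurations generated by the states of all edges `f ≠ e`. -/
abbrev offEdge {d : ℕ} (e : Edge d) : MeasurableSpace (Config d) :=
  MeasurableSpace.comap (fun (ω : Config d) (f : {f : Edge d // f ≠ e}) => ω f) inferInstance

/-- The conditional probability `ℙ(X(e) = 1 | X(f), f ≠ e)`, as a function of the
configuration. -/
noncomputable def condProbOpen {d : ℕ} (μ : Measure (Config d)) (e : Edge d) : Config d → ℝ :=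
  μ[Set.indicator {ω : Config d | ω e = true} (fun _ => (1 : ℝ)) | offEdge e]

/-- Finite energy: for every edge `e`, almost surely
`0 < ℙ(X(e) = 1 | X(f), f ≠ e) < 1`. -/
def HasFiniteEnergy {d : ℕ} (μ : Measure (Config d)) : Prop :=
  ∀ e : Edge d, ∀ᵐ ω ∂μ, 0 < condProbOpen μ e ω ∧ condProbOpen μ e ω < 1

/-- The percolation has almost surely an infinite cluster. -/
def PercolatesAS {d : ℕ} (μ : Measure (Config d)) : Prop :=
  ∀ᵐ ω ∂μ, HasInfiniteCluster ω

/-- The law of the `p`-thinning of a bond percolation with law `μ`: each open edge is kept
with probability `p` and closed otherwise, by independent coin flips (with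
probability `p` for `true`) that are independent of the configuration. -/
noncomputable def thinning {d : ℕ} (p : unitInterval) (μ : Measure (Config d)) :
    Measure (Config d) :=
  (μ.prod (Measure.infinitePi (fun _ : Edge d => bernoulliMeasure true false p))).map
    (fun q e => q.1 e && q.2 e)

/-- The critical value `p_c(X)`: the supremum of those `p ∈ [0,1]` for which the
`p`-thinning almost surely has no infinite cluster. -/
noncomputable def criticalValue {d : ℕ} (μ : Measure (Config d)) : ℝ :=
  sSup ((fun p : unitInterval => (p : ℝ)) ''
    {p : unitInterval | ∀ᵐ ω ∂(thinning p μ), ¬ HasInfiniteCluster ω})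

end Pool.Agent.Lib_helper90.Perc
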