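import Pool.Agent.Lib_helper90.Perc.Defs

/-!
# Measurability of the existence of an infinite cluster
-/

set_option autoImplicit false

namespace Pool.Agent.Lib_helper90.Perc

variable {d : ℕ}

lemma measurableSet_adj (x y : Fin d → ℤ) :
    MeasurableSet {ω : Config d | (openGraph ω).Adj x y} := by
  by_cases h : (latticeGraph d).Adj x y
  · have : {ω : Config d | (openGraph ω).Adj x y} =
        (fun ω : Config d => ω ⟨s(x, y), h⟩) ⁻¹' {true} := by
      ext ω
      constructor
      · rintro ⟨_, hω⟩; exact hω
      · intro hω; exact ⟨h, hω⟩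
    rw [this]
    exact (measurable_pi_apply _) (measurableSet_singleton true)
  · have : {ω : Config d | (openGraph ω).Adj x y} = ∅ := by
      ext ω
      constructor
      · rintro ⟨h', _⟩; exact absurd h' h
      · intro h'; exact h'.elim
    rw [this]
    exact MeasurableSet.empty

/-- reachability by a path of length `n` -/
def reachN : ℕ → (Fin d → ℤ) → (Fin d → ℤ) → Config d → Prop
  | 0, x, y, _ => x = y
  | n + 1, x, y, ω => ∃ z, reachN n x z ω ∧ (openGraph ω).Adj z y

lemma measurableSet_reachN (n : ℕ) (x y : Fin d → ℤ) :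
    MeasurableSet {ω : Config d | reachN n x y ω} := by
  induction n generalizing y with
  | zero => exact MeasurableSet.const (x = y)
  | succ n ih =>
    have : {ω : Config d | reachN (n + 1) x y ω} =
        ⋃ z, ({ω : Config d | reachN n x z ω} ∩ {ω : Config d | (openGraph ω).Adj z y}) := by
      ext ω
      simp [reachN]
    rw [this]
    exact MeasurableSet.iUnion fun z => (ih z).inter (measurableSet_adj z y)

lemma reachable_iff_reachN (x y : Fin d → ℤ) (ω : Config d) :
    (openGraph ω).Reachable x y ↔ ∃ n, reachN n x y ω := by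
  constructor
  · intro h
    rw [SimpleGraph.reachable_iff_reflTransGen] at h
    induction h with
    | refl => exact ⟨0, rfl⟩
    | tail _ hbc ih =>
      obtain ⟨n, hn⟩ := ih
      exact ⟨n + 1, _, hn, hbc⟩
  · rintro ⟨n, hn⟩
    induction n generalizing y with
    | zero => rw [show x = y from hn]
    | succ n ih =>
      obtain ⟨z, hz, hzy⟩ := hn
      exact (ih z hz).trans hzy.reachable

lemma measurableSet_reachable (x y : Fin d → ℤ) :
    MeasurableSet {ω : Config d | (openGraph ω).Reachable x y} := by
  have : {ω : Config d | (openGraph ω).Reachable x y} =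
      ⋃ n, {ω : Config d | reachN n x y ω} := by
    ext ω
    simp [reachable_iff_reachN]
  rw [this]
  exact MeasurableSet.iUnion fun n => measurableSet_reachN n x y

lemma hasInfiniteCluster_iff (ω : Config d) : HasInfiniteCluster ω ↔
    ∃ x, ∀ s : Finset (Fin d → ℤ), ∃ y, y ∉ s ∧ (openGraph ω).Reachable x y := by
  constructor
  · rintro ⟨C, hC⟩
    induction C using SimpleGraph.ConnectedComponent.ind with
    | _ x =>
      refine ⟨x, fun s => ?_⟩
      obtain ⟨y, hy, hys⟩ := hC.exists_notMem_finset s
      refine ⟨y, hys, ?_⟩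
      rw [SimpleGraph.ConnectedComponent.mem_supp_iff] at hy
      exact (SimpleGraph.ConnectedComponent.eq.1 hy).symm
  · rintro ⟨x, hx⟩
    refine ⟨(openGraph ω).connectedComponentMk x, fun hfin => ?_⟩
    obtain ⟨y, hy, hxy⟩ := hx hfin.toFinset
    apply hy
    rw [Set.Finite.mem_toFinset, SimpleGraph.ConnectedComponent.mem_supp_iff]
    exact (SimpleGraph.ConnectedComponent.eq.2 hxy).symm

lemma measurableSet_hasInfiniteCluster :
    MeasurableSet {ω : Config d | HasInfiniteCluster ω} := by
  have : {ω : Config d | HasInfiniteCluster ω} =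
      ⋃ x, ⋂ s : Finset (Fin d → ℤ), ⋃ y, ({ω : Config d | y ∉ s} ∩
        {ω : Config d | (openGraph ω).Reachable x y}) := by
    ext ω
    simp only [Set.mem_ofPred_eq, hasInfiniteCluster_iff, Set.mem_iUnion, Set.mem_iInter,
      Set.mem_inter_iff]
  rw [this]
  exact MeasurableSet.iUnion fun x => MeasurableSet.iInter fun s => MeasurableSet.iUnion fun y =>
    (MeasurableSet.const _).inter (measurableSet_reachable x y)

end Pool.Agent.Lib_helper90.Perc
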