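import Pool.Agent.Lib_helper90.Perc.Padic
import Pool.Agent.Lib_helper90.Perc.Aut
import Pool.Agent.Lib_helper90.Perc.Measurability

/-!
# The percolation process and its invariance
-/

set_option autoImplicit false

open MeasureTheory TopologicalSpace

namespace Pool.Agent.Lib_helper90.Perc

attribute [local instance] instMeasZ2 instBorelZ2 instProbZ2 instProbOff instHaarOff

variable {d : ℕ}

/-- the rates -/
noncomputable def rate (d n : ℕ) : unitInterval :=
  ⟨(1 / 2 : ℝ) ^ (2 * d * (n + 3) + n + 1), by positivity,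
    pow_le_one₀ (by norm_num) (by norm_num)⟩

lemma rate_pos (d n : ℕ) : 0 < rate d n := by
  show (0:ℝ) < (1 / 2 : ℝ) ^ (2 * d * (n + 3) + n + 1)
  positivity

lemma rate_lt_one (d n : ℕ) : rate d n < 1 := by
  show (1 / 2 : ℝ) ^ (2 * d * (n + 3) + n + 1) < 1
  exact pow_lt_one₀ (by norm_num) (by norm_num) (by omega)

lemma rate_anti (d : ℕ) {n m : ℕ} (h : n ≤ m) : rate d m ≤ rate d n := by
  show (1 / 2 : ℝ) ^ (2 * d * (m + 3) + m + 1) ≤ (1 / 2 : ℝ) ^ (2 * d * (n + 3) + n + 1)
  apply pow_le_pow_of_le_one (by norm_num) (by norm_num)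
  have : 2 * d * (n + 3) ≤ 2 * d * (m + 3) := Nat.mul_le_mul_left _ (by omega)
  omega

/-- the space of independent uniform labels on the edges -/
abbrev Lab (d : ℕ) : Type := Edge d → unitInterval

/-- law of independent uniform labels -/
noncomputable def labLaw (d : ℕ) : Measure (Lab d) :=
  Measure.infinitePi fun _ : Edge d => (volume : Measure unitInterval)

instance instProbLab : IsProbabilityMeasure (labLaw d) := by
  unfold labLaw; infer_instance

/-- the edge `e` is anomalous -/
def Anom (a : Off d) (U : Lab d) (e : Edge d) : Prop := U e < rate d (kap (wOff a) e.1)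

open Classical in
/-- the percolation configuration -/
noncomputable def conf (q : Off d × Lab d) : Config d := fun e =>
  decide ((Good (wOff q.1) e.1 ∧ ¬ Anom q.1 q.2 e) ∨ (¬ Good (wOff q.1) e.1 ∧ Anom q.1 q.2 e))

lemma conf_iff (q : Off d × Lab d) (e : Edge d) : conf q e = true ↔
    ((Good (wOff q.1) e.1 ∧ ¬ Anom q.1 q.2 e) ∨ (¬ Good (wOff q.1) e.1 ∧ Anom q.1 q.2 e)) := by
  unfold conf; simp

/-- the pairs of levels seen by an edge -/
noncomputable def wPair (x y : Fin d → ℤ) (a : Off d) : Fin d → ℕ × ℕ :=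
  fun i => (wOff a i (x i), wOff a i (y i))

lemma measurable_wPair (x y : Fin d → ℤ) : Measurable (wPair x y) := by
  rw [measurable_pi_iff]
  intro i
  exact (measurable_wOff i (x i)).prodMk (measurable_wOff i (y i))

lemma measurableSet_good (e : Sym2 (Fin d → ℤ)) :
    MeasurableSet {a : Off d | Good (wOff a) e} := by
  induction e using Sym2.ind with
  | _ x y =>
    have : {a : Off d | Good (wOff a) s(x, y)} = wPair x y ⁻¹'
        {v | ∃ n : ℕ, ∀ i, (v i).1 ≤ n + 1 ∧ (v i).2 ≤ n + 1 ∧ (x i = y i → n ≤ (v i).1)} := rfl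
    rw [this]
    exact measurable_wPair x y (Set.to_countable _).measurableSet

lemma measurable_kap (e : Sym2 (Fin d → ℤ)) : Measurable (fun a : Off d => kap (wOff a) e) := by
  induction e using Sym2.ind with
  | _ x y =>
    have : (fun a : Off d => kap (wOff a) s(x, y)) =
        (fun v : Fin d → ℕ × ℕ => max (Finset.univ.sup fun i => (v i).1)
          (Finset.univ.sup fun i => (v i).2)) ∘ wPair x y := rfl
    rw [this]
    exact (measurable_of_countable _).comp (measurable_wPair x y)

lemma measurableSet_anom (e : Edge d) :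
    MeasurableSet {q : Off d × Lab d | Anom q.1 q.2 e} := by
  have h1 : Measurable (fun q : Off d × Lab d => rate d (kap (wOff q.1) e.1)) :=
    (measurable_of_countable (rate d)).comp ((measurable_kap e.1).comp measurable_fst)
  have h2 : Measurable (fun q : Off d × Lab d => q.2 e) :=
    (measurable_pi_apply e).comp measurable_snd
  exact measurableSet_lt h2 h1

lemma measurable_conf : Measurable (conf : Off d × Lab d → Config d) := by
  rw [measurable_pi_iff]
  intro e
  apply measurable_to_bool
  have : (fun q : Off d × Lab d => conf q e) ⁻¹' {true} =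
      ({q | Good (wOff q.1) e.1} ∩ {q : Off d × Lab d | Anom q.1 q.2 e}ᶜ) ∪
      ({q | Good (wOff q.1) e.1}ᶜ ∩ {q : Off d × Lab d | Anom q.1 q.2 e}) := by
    ext q
    exact conf_iff q e
  rw [this]
  have hg : MeasurableSet {q : Off d × Lab d | Good (wOff q.1) e.1} :=
    measurable_fst (measurableSet_good e.1)
  exact (hg.inter (measurableSet_anom e).compl).union (hg.compl.inter (measurableSet_anom e))

/-- the law of the percolation -/
noncomputable def law (d : ℕ) : Measure (Config d) := ((haarOff d).prod (labLaw d)).map conf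

instance instProbLaw : IsProbabilityMeasure (law d) :=
  Measure.isProbabilityMeasure_map measurable_conf.aemeasurable

/-! ### Invariance -/

/-- signed permutation as an additive equivalence -/
noncomputable def signPerm (σ : Equiv.Perm (Fin d)) (s : Fin d → ℤ)
    (hs : ∀ i, s i = 1 ∨ s i = -1) : Off d ≃+ Off d where
  toFun b := fun i => (s i : ℤ_[2]) * b (σ i)
  invFun b := fun j => (s (σ.symm j) : ℤ_[2]) * b (σ.symm j)
  left_inv b := by
    funext j
    rcases hs (σ.symm j) with h | h <;> simp [h]
  right_inv b := by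
    funext i
    rcases hs i with h | h <;> simp [h]
  map_add' b b' := by
    funext i
    simp [mul_add]

/-- the action on offsets of an automorphism of the lattice -/
noncomputable def offMap (σ : Equiv.Perm (Fin d)) (s t : Fin d → ℤ) (a : Off d) : Off d :=
  fun i => (s i : ℤ_[2]) * ((t (σ i) : ℤ_[2]) + a (σ i))

lemma measurePreserving_offMap (σ : Equiv.Perm (Fin d)) (s t : Fin d → ℤ)
    (hs : ∀ i, s i = 1 ∨ s i = -1) :
    MeasurePreserving (offMap σ s t) (haarOff d) (haarOff d) := by
  have h1 : MeasurePreserving (fun a : Off d => (fun j => (t j : ℤ_[2])) + a)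
      (haarOff d) (haarOff d) := measurePreserving_add_left _ _
  have hc : Continuous (signPerm σ s hs) := by
    show Continuous fun (b : Off d) (i : Fin d) => (s i : ℤ_[2]) * b (σ i)
    fun_prop
  have hc' : Continuous (signPerm σ s hs).symm := by
    show Continuous fun (b : Off d) (j : Fin d) => (s (σ.symm j) : ℤ_[2]) * b (σ.symm j)
    fun_prop
  have h2 : MeasurePreserving (signPerm σ s hs) (haarOff d) (haarOff d) := by
    refine ⟨hc.measurable, ?_⟩
    have i1 := AddEquiv.isAddHaarMeasure_map (haarOff d) (signPerm σ s hs) hc hc'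
    have i2 : IsProbabilityMeasure (Measure.map (signPerm σ s hs) (haarOff d)) :=
      Measure.isProbabilityMeasure_map hc.measurable.aemeasurable
    exact Measure.isAddHaarMeasure_eq_of_isProbabilityMeasure _ _
  exact h2.comp h1

lemma measurePreserving_reindex (ψ : Edge d ≃ Edge d) :
    MeasurePreserving (fun (U : Lab d) (e : Edge d) => U (ψ e)) (labLaw d) (labLaw d) := by
  have hm : Measurable (fun (U : Lab d) (e : Edge d) => U (ψ e)) := by
    rw [measurable_pi_iff]
    intro e
    exact measurable_pi_apply _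
  refine ⟨hm, ?_⟩
  unfold labLaw
  apply Measure.eq_infinitePi
  intro s t ht
  rw [Measure.map_apply hm (MeasurableSet.pi s.countable_toSet fun e _ => ht e)]
  have : (fun (U : Lab d) (e : Edge d) => U (ψ e)) ⁻¹' ((s : Set (Edge d)).pi t) =
      ((s.map ψ.toEmbedding : Finset (Edge d)) : Set (Edge d)).pi (fun e => t (ψ.symm e)) := by
    ext U
    simp only [Set.mem_preimage, Set.mem_pi, Finset.coe_map, Finset.mem_coe]
    constructor
    · rintro h e ⟨f, hf, rfl⟩
      have h1 := h f hf
      have h2 : ψ.symm (ψ.toEmbedding f) = f := ψ.symm_apply_apply f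
      rw [h2]
      exact h1
    · intro h e he
      have h1 := h (ψ e) ⟨e, he, rfl⟩
      rw [ψ.symm_apply_apply] at h1
      exact h1
  rw [this, Measure.infinitePi_pi _ (fun e _ => ht _), Finset.prod_map]
  apply Finset.prod_congr rfl
  intro e _
  have h2 : ψ.symm (ψ.toEmbedding e) = e := ψ.symm_apply_apply e
  rw [h2]

lemma valuation_neg' (b : ℤ_[2]) : (-b).valuation = b.valuation := by
  by_cases hb : b = 0
  · subst hb; simp
  · have h1 : ((-1 : ℤ_[2])).valuation = 0 := by
      have h := PadicInt.valuation_mul (p := 2) (x := -1) (y := -1) (by simp) (by simp)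
      have e : ((-1 : ℤ_[2]) * -1) = 1 := by ring
      rw [e, PadicInt.valuation_one] at h
      omega
    have e : -b = (-1) * b := by ring
    rw [e, PadicInt.valuation_mul (by simp) hb, h1, zero_add]

lemma wOff_map (φ : latticeGraph d ≃g latticeGraph d) (σ : Equiv.Perm (Fin d)) (s : Fin d → ℤ)
    (hs : ∀ i, s i = 1 ∨ s i = -1) (h : ∀ x i, φ x (σ i) = s i * x i + φ 0 (σ i))
    (a : Off d) (x : Fin d → ℤ) (i : Fin d) :
    wOff a (σ i) (φ x (σ i)) = wOff (offMap σ s (φ 0) a) i (x i) := by
  unfold wOff offMap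
  rw [h x i]
  rcases hs i with h1 | h1 <;> rw [h1]
  · congr 1; push_cast; ring
  · rw [← valuation_neg']
    congr 1; push_cast; ring

lemma good_map (φ : latticeGraph d ≃g latticeGraph d) (σ : Equiv.Perm (Fin d)) (s : Fin d → ℤ)
    (hs : ∀ i, s i = 1 ∨ s i = -1) (h : ∀ x i, φ x (σ i) = s i * x i + φ 0 (σ i))
    (a : Off d) (e : Sym2 (Fin d → ℤ)) :
    Good (wOff a) (Sym2.map φ e) ↔ Good (wOff (offMap σ s (φ 0) a)) e := by
  induction e using Sym2.ind with
  | _ x y =>
    rw [Sym2.map_mk, good_mk, good_mk]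
    apply exists_congr
    intro n
    have hxy : ∀ i, φ x (σ i) = φ y (σ i) ↔ x i = y i := by
      intro i
      rw [h x i, h y i]
      rcases hs i with h1 | h1 <;> rw [h1] <;> omega
    constructor
    · intro H i
      have := H (σ i)
      rwa [wOff_map φ σ s hs h a x i, wOff_map φ σ s hs h a y i, hxy] at this
    · intro H j
      have := H (σ.symm j)
      rw [← wOff_map φ σ s hs h a x, ← wOff_map φ σ s hs h a y, ← hxy] at this
      simpa using this

lemma lvl_map (φ : latticeGraph d ≃g latticeGraph d) (σ : Equiv.Perm (Fin d)) (s : Fin d → ℤ)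
    (hs : ∀ i, s i = 1 ∨ s i = -1) (h : ∀ x i, φ x (σ i) = s i * x i + φ 0 (σ i))
    (a : Off d) (x : Fin d → ℤ) :
    lvl (wOff a) (φ x) = lvl (wOff (offMap σ s (φ 0) a)) x := by
  unfold lvl
  apply le_antisymm
  · apply Finset.sup_le
    intro j _
    have := wOff_map φ σ s hs h a x (σ.symm j)
    rw [Equiv.apply_symm_apply] at this
    rw [this]
    exact Finset.le_sup (f := fun i => wOff (offMap σ s (φ 0) a) i (x i)) (Finset.mem_univ _)
  · apply Finset.sup_le
    intro i _
    rw [← wOff_map φ σ s hs h a x i]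
    exact Finset.le_sup (f := fun i => wOff a i (φ x i)) (Finset.mem_univ _)

lemma kap_map (φ : latticeGraph d ≃g latticeGraph d) (σ : Equiv.Perm (Fin d)) (s : Fin d → ℤ)
    (hs : ∀ i, s i = 1 ∨ s i = -1) (h : ∀ x i, φ x (σ i) = s i * x i + φ 0 (σ i))
    (a : Off d) (e : Sym2 (Fin d → ℤ)) :
    kap (wOff a) (Sym2.map φ e) = kap (wOff (offMap σ s (φ 0) a)) e := by
  induction e using Sym2.ind with
  | _ x y =>
    rw [Sym2.map_mk, kap_mk, kap_mk, lvl_map φ σ s hs h, lvl_map φ σ s hs h]

theorem law_invariant (d : ℕ) : IsInvariant (law d) := by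
  intro φ
  obtain ⟨σ, s, hs, h⟩ := aut_classification φ
  have hact : Measurable (fun (ω : Config d) (e : Edge d) => ω (φ.mapEdgeSet e)) := by
    rw [measurable_pi_iff]
    intro e
    exact measurable_pi_apply _
  have hP : MeasurePreserving
      (Prod.map (offMap σ s (φ 0)) (fun (U : Lab d) (e : Edge d) => U (φ.mapEdgeSet e)))
      ((haarOff d).prod (labLaw d)) ((haarOff d).prod (labLaw d)) :=
    (measurePreserving_offMap σ s (φ 0) hs).prod (measurePreserving_reindex φ.mapEdgeSet)
  have hcomm : (fun (ω : Config d) (e : Edge d) => ω (φ.mapEdgeSet e)) ∘ conf =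
      conf ∘ (Prod.map (offMap σ s (φ 0))
        (fun (U : Lab d) (e : Edge d) => U (φ.mapEdgeSet e))) := by
    funext q e
    rw [Bool.eq_iff_iff]
    show conf q (φ.mapEdgeSet e) = true ↔ _
    rw [conf_iff]
    simp only [Function.comp_apply]
    rw [conf_iff]
    have he : (φ.mapEdgeSet e).1 = Sym2.map φ e.1 := rfl
    unfold Anom
    rw [he, good_map φ σ s hs h, kap_map φ σ s hs h]
    rfl
  unfold law
  rw [Measure.map_map hact measurable_conf, hcomm, ← Measure.map_map measurable_conf hP.measurable,
    hP.map_eq]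

end Pool.Agent.Lib_helper90.Perc
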