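import Pool.Agent.Lib_helper90.Perc.Env

/-!
# Finite energy
-/

set_option autoImplicit false

open MeasureTheory TopologicalSpace ProbabilityTheory

namespace Pool.Agent.Lib_helper90.Perc

attribute [local instance] instMeasZ2 instBorelZ2 instProbZ2 instProbOff instHaarOff

variable {d : ℕ}

open Classical in
/-- resampling one label -/
noncomputable def resample (e : Edge d) (q : Lab d × unitInterval) : Lab d :=
  Function.update q.1 e q.2

lemma measurable_resample (e : Edge d) : Measurable (resample e) := by
  rw [measurable_pi_iff]
  intro f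
  by_cases hf : f = e
  · subst hf
    have : (fun q : Lab d × unitInterval => resample f q f) = fun q => q.2 := by
      funext q; unfold resample; simp
    rw [this]
    exact measurable_snd
  · have : (fun q : Lab d × unitInterval => resample e q f) = fun q => q.1 f := by
      funext q; unfold resample; simp [hf]
    rw [this]
    exact (measurable_pi_apply f).comp measurable_fst

lemma measurePreserving_resample (e : Edge d) :
    MeasurePreserving (resample e) ((labLaw d).prod volume) (labLaw d) := by
  classical
  refine ⟨measurable_resample e, ?_⟩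
  conv_rhs => unfold labLaw
  apply Measure.eq_infinitePi
  intro s t ht
  rw [Measure.map_apply (measurable_resample e)
    (MeasurableSet.pi s.countable_toSet fun f _ => ht f)]
  have h1 : resample e ⁻¹' ((s : Set (Edge d)).pi t) =
      (((s.erase e : Finset (Edge d)) : Set (Edge d)).pi t) ×ˢ
        (if e ∈ s then t e else Set.univ) := by
    ext ⟨U, u⟩
    simp only [Set.mem_preimage, Set.mem_pi, Finset.mem_coe, Set.mem_prod, Finset.mem_erase]
    unfold resample
    constructor
    · intro h
      constructor
      · rintro f ⟨hf1, hf2⟩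
        have := h f hf2
        rwa [Function.update_of_ne hf1] at this
      · split_ifs with hes
        · have := h e hes
          rwa [Function.update_self] at this
        · trivial
    · rintro ⟨h1, h2⟩ f hf
      by_cases hfe : f = e
      · subst hfe
        rw [if_pos hf] at h2
        rwa [Function.update_self]
      · rw [Function.update_of_ne hfe]
        exact h1 f ⟨hfe, hf⟩
  rw [h1, Measure.prod_prod]
  unfold labLaw
  rw [Measure.infinitePi_pi _ (fun f _ => ht f)]
  by_cases hes : e ∈ s
  · rw [if_pos hes, mul_comm]
    exact Finset.mul_prod_erase s (fun f => (volume : Measure unitInterval) (t f)) hes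
  · rw [if_neg hes, measure_univ, mul_one, Finset.erase_eq_of_notMem hes]

/-- resampling one label in the full probability space -/
noncomputable def resampleFull (e : Edge d) (q : (Off d × Lab d) × unitInterval) :
    Off d × Lab d := (q.1.1, resample e (q.1.2, q.2))

lemma measurePreserving_resampleFull (e : Edge d) :
    MeasurePreserving (resampleFull e) (((haarOff d).prod (labLaw d)).prod volume)
      ((haarOff d).prod (labLaw d)) := by
  have h1 := measurePreserving_prodAssoc (haarOff d) (labLaw d) (volume : Measure unitInterval)
  have h2 := (MeasurePreserving.id (haarOff d)).prod (measurePreserving_resample e)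
  exact h2.comp h1

lemma offEdge_le (e : Edge d) : offEdge e ≤ (inferInstance : MeasurableSpace (Config d)) := by
  apply Measurable.comap_le
  rw [measurable_pi_iff]
  intro f
  exact measurable_pi_apply _

lemma resample_ne (e : Edge d) (q : Lab d × unitInterval) {f : Edge d} (h : f ≠ e) :
    resample e q f = q.1 f := by
  unfold resample; simp [h]

lemma resample_self (e : Edge d) (q : Lab d × unitInterval) : resample e q e = q.2 := by
  unfold resample; simp

lemma conf_resample_ne (e : Edge d) (q : (Off d × Lab d) × unitInterval) {f : Edge d}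
    (h : f ≠ e) : conf (resampleFull e q) f = conf q.1 f := by
  rw [Bool.eq_iff_iff, conf_iff, conf_iff]
  have h1 : Anom (resampleFull e q).1 (resampleFull e q).2 f ↔ Anom q.1.1 q.1.2 f := by
    show resample e (q.1.2, q.2) f < rate d (kap (wOff q.1.1) f.1) ↔
      q.1.2 f < rate d (kap (wOff q.1.1) f.1)
    rw [resample_ne e _ h]
  rw [h1]
  rfl

/-- membership in events depending only on the edges other than `e` is not
affected by resampling the label of `e` -/
lemma mem_offEdge_resample (e : Edge d) {s : Set (Config d)} (hs : MeasurableSet[offEdge e] s)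
    (q : (Off d × Lab d) × unitInterval) : conf (resampleFull e q) ∈ s ↔ conf q.1 ∈ s := by
  obtain ⟨T, _, rfl⟩ := hs
  have : (fun (f : {f : Edge d // f ≠ e}) => conf (resampleFull e q) f) =
      (fun (f : {f : Edge d // f ≠ e}) => conf q.1 f) := by
    funext f
    exact conf_resample_ne e q f.2
  show (fun (f : {f : Edge d // f ≠ e}) => conf (resampleFull e q) f) ∈ T ↔
    (fun (f : {f : Edge d // f ≠ e}) => conf q.1 f) ∈ T
  rw [this]

/-- whatever the environment, both states of `e` have positive conditional probability -/
lemma state_pos (e : Edge d) (q : Off d × Lab d) (b : Bool) :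
    0 < (volume : Measure unitInterval) {u | conf (resampleFull e (q, u)) e = b} := by
  have hanom : ∀ u : unitInterval, Anom (resampleFull e (q, u)).1 (resampleFull e (q, u)).2 e ↔
      u < rate d (kap (wOff q.1) e.1) := by
    intro u
    show resample e (q.2, u) e < rate d (kap (wOff q.1) e.1) ↔ _
    rw [resample_self]
  have hpos1 : 0 < (volume : Measure unitInterval) (Set.Iio (rate d (kap (wOff q.1) e.1))) := by
    rw [unitInterval.volume_Iio]
    exact ENNReal.ofReal_pos.2 (rate_pos _ _)
  have hpos2 : 0 < (volume : Measure unitInterval) (Set.Ici (rate d (kap (wOff q.1) e.1))) := by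
    rw [unitInterval.volume_Ici]
    apply ENNReal.ofReal_pos.2
    have : ((rate d (kap (wOff q.1) e.1) : unitInterval) : ℝ) < 1 := rate_lt_one _ _
    linarith
  by_cases hg : Good (wOff q.1) e.1 <;> cases b
  · refine lt_of_lt_of_le hpos1 (measure_mono ?_)
    intro u hu
    show conf (resampleFull e (q, u)) e = false
    rw [← Bool.not_eq_true, conf_iff, hanom]
    have h1 : Good (wOff (resampleFull e (q, u)).1) e.1 := hg
    have h2 : u < rate d (kap (wOff q.1) e.1) := hu
    tauto
  · refine lt_of_lt_of_le hpos2 (measure_mono ?_)
    intro u hu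
    show conf (resampleFull e (q, u)) e = true
    rw [conf_iff, hanom]
    have h1 : Good (wOff (resampleFull e (q, u)).1) e.1 := hg
    have h2 : ¬ u < rate d (kap (wOff q.1) e.1) := not_lt.2 hu
    tauto
  · refine lt_of_lt_of_le hpos2 (measure_mono ?_)
    intro u hu
    show conf (resampleFull e (q, u)) e = false
    rw [← Bool.not_eq_true, conf_iff, hanom]
    have h1 : ¬ Good (wOff (resampleFull e (q, u)).1) e.1 := hg
    have h2 : ¬ u < rate d (kap (wOff q.1) e.1) := not_lt.2 hu
    tauto
  · refine lt_of_lt_of_le hpos1 (measure_mono ?_)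
    intro u hu
    show conf (resampleFull e (q, u)) e = true
    rw [conf_iff, hanom]
    have h1 : ¬ Good (wOff (resampleFull e (q, u)).1) e.1 := hg
    have h2 : u < rate d (kap (wOff q.1) e.1) := hu
    tauto

lemma measurableSet_state (e : Edge d) (b : Bool) :
    MeasurableSet {ω : Config d | ω e = b} := by
  have h : Measurable (fun ω : Config d => ω e) := measurable_pi_apply e
  exact h (measurableSet_singleton b)

/-- tolerance of the law -/
lemma law_tolerant (e : Edge d) {s : Set (Config d)} (hs : MeasurableSet[offEdge e] s) (b : Bool)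
    (h : law d (s ∩ {ω | ω e = b}) = 0) : law d s = 0 := by
  have hs' : MeasurableSet s := offEdge_le e s hs
  unfold law at *
  rw [Measure.map_apply measurable_conf (hs'.inter (measurableSet_state e b))] at h
  rw [Measure.map_apply measurable_conf hs']
  rw [← (measurePreserving_resampleFull e).measure_preimage
    (measurable_conf (hs'.inter (measurableSet_state e b))).nullMeasurableSet] at h
  have h2 := Measure.measure_ae_null_of_prod_null h
  rw [measure_eq_zero_iff_ae_notMem]
  filter_upwards [h2] with q hq hqs
  have h3 := state_pos e q b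
  have h4 : Prod.mk q ⁻¹' (resampleFull e ⁻¹' (conf ⁻¹' (s ∩ {ω | ω e = b}))) =
      {u | conf (resampleFull e (q, u)) e = b} := by
    ext u
    constructor
    · intro hu; exact hu.2
    · intro hu; exact ⟨(mem_offEdge_resample e hs (q, u)).2 hqs, hu⟩
  rw [h4] at hq
  exact h3.ne' hq

theorem law_finiteEnergy (d : ℕ) : HasFiniteEnergy (law d) := by
  intro e
  have hm := offEdge_le e
  set f : Config d → ℝ := Set.indicator {ω : Config d | ω e = true} (fun _ => (1 : ℝ)) with hf
  set g : Config d → ℝ := condProbOpen (law d) e with hg
  have hfint : Integrable f (law d) := (integrable_const (1:ℝ)).indicator (measurableSet_state e true)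
  have hgint : Integrable g (law d) := integrable_condExp
  have hgm : Measurable[offEdge e] g := stronglyMeasurable_condExp.measurable
  have hset : ∀ s : Set (Config d), MeasurableSet[offEdge e] s →
      ∫ ω in s, g ω ∂(law d) = (law d).real (s ∩ {ω | ω e = true}) := by
    intro s hs
    rw [hg]
    unfold condProbOpen
    rw [setIntegral_condExp hm hfint hs]
    rw [hf, integral_indicator (measurableSet_state e true), setIntegral_const, smul_eq_mul,
      mul_one, measureReal_restrict_apply (measurableSet_state e true), Set.inter_comm]
  have hlow : law d {ω | g ω ≤ 0} = 0 := by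
    have hs : MeasurableSet[offEdge e] {ω | g ω ≤ 0} :=
      @measurableSet_le _ _ _ _ _ (offEdge e) _ _ _ _ _ hgm (@measurable_const _ _ _ (offEdge e) _)
    apply law_tolerant e hs true
    have h1 := hset _ hs
    have h2 : ∫ ω in {ω | g ω ≤ 0}, g ω ∂(law d) ≤ 0 :=
      setIntegral_nonpos (hm _ hs) (fun ω hω => hω)
    rw [h1] at h2
    have h3 : (law d).real ({ω | g ω ≤ 0} ∩ {ω | ω e = true}) = 0 :=
      le_antisymm h2 measureReal_nonneg
    rwa [measureReal_eq_zero_iff] at h3
  have hup : law d {ω | 1 ≤ g ω} = 0 := by
    have hs : MeasurableSet[offEdge e] {ω | 1 ≤ g ω} :=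
      @measurableSet_le _ _ _ _ _ (offEdge e) _ _ _ _ _ (@measurable_const _ _ _ (offEdge e) _) hgm
    apply law_tolerant e hs false
    have h1 := hset _ hs
    have h2 : (law d).real {ω | 1 ≤ g ω} ≤ ∫ ω in {ω | 1 ≤ g ω}, g ω ∂(law d) := by
      have : ∫ ω in {ω | 1 ≤ g ω}, (1:ℝ) ∂(law d) ≤ ∫ ω in {ω | 1 ≤ g ω}, g ω ∂(law d) :=
        setIntegral_mono_on (integrable_const _).integrableOn hgint.integrableOn (hm _ hs)
          (fun ω hω => hω)
      simpa using this
    rw [h1] at h2
    have h3 : (law d).real ({ω | 1 ≤ g ω} ∩ {ω | ω e = true}) +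
        (law d).real ({ω | 1 ≤ g ω} \ {ω | ω e = true}) = (law d).real {ω | 1 ≤ g ω} :=
      measureReal_inter_add_sdiff (measurableSet_state e true)
    have h4 : ({ω | 1 ≤ g ω} \ {ω | ω e = true}) = {ω | 1 ≤ g ω} ∩ {ω | ω e = false} := by
      ext ω
      show (1 ≤ g ω ∧ ¬ ω e = true) ↔ (1 ≤ g ω ∧ ω e = false)
      rw [Bool.not_eq_true]
    rw [h4] at h3
    have h5 : (law d).real ({ω | 1 ≤ g ω} ∩ {ω | ω e = false}) = 0 :=
      le_antisymm (by linarith) measureReal_nonneg
    rwa [measureReal_eq_zero_iff] at h5
  rw [measure_eq_zero_iff_ae_notMem] at hlow hup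
  filter_upwards [hlow, hup] with ω h1 h2
  exact ⟨not_le.1 h1, not_le.1 h2⟩

end Pool.Agent.Lib_helper90.Perc
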