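import Pool.Agent.Lib_helper90.Perc.Defs

/-!
# The deterministic part: hierarchical structures on `ℤ^d`
-/

set_option autoImplicit false

namespace Pool.Agent.Lib_helper90.Perc

variable {d : ℕ}

/-- A hierarchical (dyadic) structure: for each coordinate a ruler function `w i`, and for
each level `n` the largest point `l n i ≤ 0` at which the ruler has height at least `n`. -/
structure Hier (d : ℕ) where
  /-- ruler functions -/
  w : Fin d → ℤ → ℕ
  /-- the largest nonpositive point of level at least `n` -/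
  l : ℕ → Fin d → ℤ
  hl0 : ∀ n i, l n i ≤ 0
  hl1 : ∀ n i, 0 < l n i + 2 ^ n
  hw : ∀ n i k, n ≤ w i k ↔ (2 ^ n : ℤ) ∣ k - l n i

/-- level of a vertex -/
def lvl (w : Fin d → ℤ → ℕ) (x : Fin d → ℤ) : ℕ := Finset.univ.sup (fun i => w i (x i))

/-- level of a pair of vertices -/
def kap (w : Fin d → ℤ → ℕ) : Sym2 (Fin d → ℤ) → ℕ :=
  Sym2.lift ⟨fun x y => max (lvl w x) (lvl w y), fun _ _ => max_comm _ _⟩

/-- the good edges -/
def Good (w : Fin d → ℤ → ℕ) : Sym2 (Fin d → ℤ) → Prop :=
  Sym2.lift ⟨fun x y => ∃ n : ℕ, ∀ i, w i (x i) ≤ n + 1 ∧ w i (y i) ≤ n + 1 ∧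
    (x i = y i → n ≤ w i (x i)), fun x y => by
      apply propext
      constructor
      · rintro ⟨n, hn⟩
        refine ⟨n, fun i => ⟨(hn i).2.1, (hn i).1, fun h => ?_⟩⟩
        rw [h]
        exact (hn i).2.2 h.symm
      · rintro ⟨n, hn⟩
        refine ⟨n, fun i => ⟨(hn i).2.1, (hn i).1, fun h => ?_⟩⟩
        rw [h]
        exact (hn i).2.2 h.symm⟩

lemma kap_mk (w : Fin d → ℤ → ℕ) (x y : Fin d → ℤ) :
    kap w s(x, y) = max (lvl w x) (lvl w y) := rfl

lemma good_mk (w : Fin d → ℤ → ℕ) (x y : Fin d → ℤ) :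
    Good w s(x, y) ↔ ∃ n : ℕ, ∀ i, w i (x i) ≤ n + 1 ∧ w i (y i) ≤ n + 1 ∧
      (x i = y i → n ≤ w i (x i)) := Iff.rfl

lemma le_lvl (w : Fin d → ℤ → ℕ) (x : Fin d → ℤ) (i : Fin d) : w i (x i) ≤ lvl w x :=
  Finset.le_sup (f := fun i => w i (x i)) (Finset.mem_univ i)

/-- both endpoints lie in the cube of radius `2^(n+1)` -/
def InBox (n : ℕ) (e : Sym2 (Fin d → ℤ)) : Prop := ∀ x ∈ e, ∀ i, |x i| ≤ 2 ^ (n + 1)

/-- adjacency in coordinates -/
lemma adj_coord {x y : Fin d → ℤ} (h : (latticeGraph d).Adj x y) :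
    ∃ i, (∀ j, j ≠ i → x j = y j) ∧ (y i = x i + 1 ∨ y i = x i - 1) := by
  have h' : ∑ i, (x i - y i) ^ 2 = 1 := h
  have hne : x ≠ y := h.ne
  obtain ⟨i, hi⟩ := Function.ne_iff.1 hne
  have h1 : (x i - y i) ^ 2 + ∑ j ∈ Finset.univ.erase i, (x j - y j) ^ 2 = 1 := by
    rw [← h']
    exact Finset.add_sum_erase Finset.univ (fun j => (x j - y j) ^ 2) (Finset.mem_univ i)
  have h2 : 0 ≤ ∑ j ∈ Finset.univ.erase i, (x j - y j) ^ 2 :=
    Finset.sum_nonneg fun j _ => sq_nonneg _
  have h3 : 1 ≤ (x i - y i) ^ 2 := by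
    have : 0 < (x i - y i) ^ 2 :=
      lt_of_le_of_ne (sq_nonneg _) (Ne.symm (pow_ne_zero 2 (sub_ne_zero.2 hi)))
    omega
  have h4 : ∑ j ∈ Finset.univ.erase i, (x j - y j) ^ 2 = 0 := by omega
  have h5 : (x i - y i) ^ 2 = 1 := by omega
  refine ⟨i, ?_, ?_⟩
  · intro j hj
    have := (Finset.sum_eq_zero_iff_of_nonneg (fun j _ => sq_nonneg (x j - y j))).1 h4 j
      (Finset.mem_erase.2 ⟨hj, Finset.mem_univ j⟩)
    exact sub_eq_zero.1 (pow_eq_zero_iff (two_ne_zero)|>.1 this)
  · have h6 : (x i - y i - 1) * (x i - y i + 1) = 0 := by linear_combination h5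
    rcases mul_eq_zero.1 h6 with h | h <;> omega

lemma adj_of_coord {x y : Fin d → ℤ} (i : Fin d) (h1 : ∀ j, j ≠ i → x j = y j)
    (h2 : y i = x i + 1 ∨ y i = x i - 1) : (latticeGraph d).Adj x y := by
  show ∑ i, (x i - y i) ^ 2 = 1
  rw [Finset.sum_eq_single i]
  · rcases h2 with h | h <;> rw [h] <;> ring
  · intro j _ hj
    rw [h1 j hj]; ring
  · intro h; exact absurd (Finset.mem_univ i) h

namespace Hier

variable (H : Hier d)

/-- center of the box of level `n+1` -/
def c (n : ℕ) : Fin d → ℤ := fun i => H.l (n + 1) i + 2 ^ n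

lemma dvd_of_le {n m : ℕ} (h : n ≤ m) (i : Fin d) : (2 ^ n : ℤ) ∣ H.l m i - H.l n i := by
  rw [← H.hw]
  refine le_trans h ?_
  rw [H.hw]
  simp

lemma w_c (n : ℕ) (i : Fin d) : H.w i (H.c n i) = n := by
  apply le_antisymm
  · by_contra hcon
    push Not at hcon
    have h1 : n + 1 ≤ H.w i (H.c n i) := hcon
    rw [H.hw] at h1
    unfold c at h1
    have h2 : H.l (n + 1) i + 2 ^ n - H.l (n + 1) i = (2:ℤ) ^ n := by ring
    rw [h2] at h1
    have h3 := Int.le_of_dvd (by positivity) h1
    rw [pow_succ] at h3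
    have : (0:ℤ) < 2 ^ n := by positivity
    omega
  · rw [H.hw]
    unfold c
    have h1 := H.dvd_of_le (Nat.le_succ n) i
    have h2 : H.l (n + 1) i + 2 ^ n - H.l n i = (H.l (n + 1) i - H.l n i) + 2 ^ n := by ring
    rw [h2]
    exact dvd_add h1 (dvd_refl _)

/-- consecutive boxes -/
lemma l_succ (n : ℕ) (i : Fin d) :
    H.l n i = H.l (n + 1) i ∨ H.l n i = H.l (n + 1) i + 2 ^ n := by
  obtain ⟨k, hk⟩ := H.dvd_of_le (Nat.le_succ n) i
  have h0 := H.hl0 n i
  have h1 := H.hl1 n i
  have h2 := H.hl0 (n + 1) i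
  have h3 := H.hl1 (n + 1) i
  have hp : (0:ℤ) < 2 ^ n := by positivity
  rw [pow_succ] at h3
  have hk' : H.l (n + 1) i = H.l n i + 2 ^ n * k := by
    simp only [Nat.succ_eq_add_one] at hk
    linarith
  have k1 : k < 1 := by nlinarith
  have k2 : -2 < k := by nlinarith
  have k3 : k = 0 ∨ k = -1 := by omega
  rcases k3 with k3 | k3
  · left; rw [hk', k3]; ring
  · right; rw [hk', k3]; ring

lemma c_succ (n : ℕ) (i : Fin d) :
    H.c (n + 1) i = H.c n i + 2 ^ n ∨ H.c (n + 1) i = H.c n i - 2 ^ n := by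
  unfold c
  rcases H.l_succ (n + 1) i with h | h
  · left; rw [h, pow_succ]; ring
  · right; rw [h, pow_succ]; ring

/-- points between two consecutive centers have level at most `n+1` -/
lemma w_between (n : ℕ) (i : Fin d) (k : ℤ) (h : |k - H.c (n + 1) i| ≤ 2 ^ n) :
    H.w i k ≤ n + 1 := by
  by_contra hcon
  push Not at hcon
  have h1 : n + 2 ≤ H.w i k := hcon
  rw [H.hw] at h1
  unfold c at h
  obtain ⟨q, hq⟩ := h1
  rw [abs_le] at h
  have hp : (0:ℤ) < 2 ^ n := by positivity
  have e1 : (2:ℤ) ^ (n + 1) = 2 * 2 ^ n := by ring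
  have e2 : (2:ℤ) ^ (n + 2) = 4 * 2 ^ n := by ring
  have e3 : H.l (n + 1 + 1) i = H.l (n + 2) i := rfl
  rw [e1, e3] at h
  rw [e2] at hq
  have q1 : q < 1 := by nlinarith
  have q2 : 0 < q := by nlinarith
  omega

/-- points between two consecutive centers are in the cube of radius `2^(n+1)` -/
lemma between_abs (n : ℕ) (i : Fin d) (k : ℤ)
    (h1 : H.l (n + 1) i ≤ k) (h2 : k ≤ H.l (n + 1) i + 2 ^ (n + 1)) : |k| ≤ 2 ^ (n + 1) := by
  have h3 := H.hl0 (n + 1) i
  have h4 := H.hl1 (n + 1) i
  rw [abs_le]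
  constructor <;> omega

lemma c_mem (n : ℕ) (i : Fin d) : H.c n i = H.l (n + 1) i + 2 ^ n := rfl

end Hier

lemma reach_seg {V : Type*} (G : SimpleGraph V) (f : ℤ → V) (a b : ℤ) (hab : a ≤ b)
    (h : ∀ k, a ≤ k → k < b → G.Adj (f k) (f (k + 1))) : G.Reachable (f a) (f b) := by
  induction b, hab using Int.leInduction with
  | base => exact SimpleGraph.Reachable.refl _
  | succ n hn ih =>
    have h1 := ih (fun k hk hk' => h k hk (by omega))
    exact h1.trans (h n hn (by omega)).reachable

/-- an edge on the path between two consecutive centers is open -/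
lemma edge_open (H : Hier d) (hd : 2 ≤ d) (ω : Config d) (n : ℕ)
    (h : ∀ e : Edge d, InBox n e.1 → n ≤ kap H.w e.1 → (ω e = true ↔ Good H.w e.1))
    (z : Fin d → ℤ) (hz : ∀ j, z j = H.c n j ∨ z j = H.c (n + 1) j) (i : Fin d) (k : ℤ)
    (hk1 : |k - H.c (n + 1) i| ≤ 2 ^ n) (hk2 : |k + 1 - H.c (n + 1) i| ≤ 2 ^ n)
    (hk3 : H.l (n + 1) i ≤ k) (hk4 : k + 1 ≤ H.l (n + 1) i + 2 ^ (n + 1)) :
    (openGraph ω).Adj (Function.update z i k) (Function.update z i (k + 1)) := by
  have hadj : (latticeGraph d).Adj (Function.update z i k) (Function.update z i (k + 1)) := by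
    apply adj_of_coord i
    · intro j hj
      rw [Function.update_of_ne hj, Function.update_of_ne hj]
    · left
      rw [Function.update_self, Function.update_self]
  refine ⟨hadj, ?_⟩
  have hzabs : ∀ j, |z j| ≤ 2 ^ (n + 1) := by
    intro j
    have e1 : (2:ℤ) ^ (n + 1) = 2 * 2 ^ n := by ring
    have hp : (0:ℤ) < 2 ^ n := by positivity
    have hc := H.c_mem n j
    have hc' := H.c_succ n j
    apply H.between_abs n j
    · rcases hz j with h1 | h1 <;> rcases hc' with h2 | h2 <;> omega
    · rcases hz j with h1 | h1 <;> rcases hc' with h2 | h2 <;> omega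
  have hzw : ∀ j, n ≤ H.w j (z j) ∧ H.w j (z j) ≤ n + 1 := by
    intro j
    rcases hz j with h1 | h1 <;> rw [h1, H.w_c] <;> omega
  rw [h ⟨_, hadj⟩]
  · -- good
    show Good H.w s(_, _)
    rw [good_mk]
    refine ⟨n, fun j => ?_⟩
    by_cases hj : j = i
    · subst hj
      simp only [Function.update_self]
      exact ⟨H.w_between n j k hk1, H.w_between n j (k + 1) hk2, fun h => by omega⟩
    · rw [Function.update_of_ne hj, Function.update_of_ne hj]
      exact ⟨(hzw j).2, (hzw j).2, fun _ => (hzw j).1⟩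
  · -- in the box
    intro x hx j
    have hx' : x = Function.update z i k ∨ x = Function.update z i (k + 1) := by
      simpa using hx
    rcases hx' with hx' | hx' <;> rw [hx'] <;> by_cases hj : j = i
    · subst hj
      rw [Function.update_self]
      exact H.between_abs n j k hk3 (by omega)
    · rw [Function.update_of_ne hj]; exact hzabs j
    · subst hj
      rw [Function.update_self]
      exact H.between_abs n j (k + 1) (by omega) hk4
    · rw [Function.update_of_ne hj]; exact hzabs j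
  · -- level
    show n ≤ kap H.w s(_, _)
    rw [kap_mk]
    obtain ⟨j, hj⟩ : ∃ j : Fin d, j ≠ i := by
      have : Nontrivial (Fin d) := Fin.nontrivial_iff_two_le.2 hd
      exact exists_ne i
    refine le_trans ?_ (le_max_left _ _)
    refine le_trans ?_ (le_lvl H.w _ j)
    rw [Function.update_of_ne hj]
    exact (hzw j).1

lemma reach_centers (H : Hier d) (hd : 2 ≤ d) (ω : Config d) (n : ℕ)
    (h : ∀ e : Edge d, InBox n e.1 → n ≤ kap H.w e.1 → (ω e = true ↔ Good H.w e.1)) :
    (openGraph ω).Reachable (H.c n) (H.c (n + 1)) := by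
  classical
  let z : Finset (Fin d) → Fin d → ℤ := fun s j => if j ∈ s then H.c (n + 1) j else H.c n j
  have hzc : ∀ s j, z s j = H.c n j ∨ z s j = H.c (n + 1) j := by
    intro s j
    by_cases hj : j ∈ s
    · right; simp [z, hj]
    · left; simp [z, hj]
  have key : ∀ s : Finset (Fin d), (openGraph ω).Reachable (H.c n) (z s) := by
    intro s
    induction s using Finset.induction_on with
    | empty =>
      have : z ∅ = H.c n := by funext j; simp [z]
      rw [this]
    | insert i s hi ih =>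
      refine ih.trans ?_
      have e1 : z s = Function.update (z s) i (H.c n i) := by
        funext j
        by_cases hj : j = i
        · subst hj; simp [z, hi]
        · rw [Function.update_of_ne hj]
      have e2 : z (insert i s) = Function.update (z s) i (H.c (n + 1) i) := by
        funext j
        by_cases hj : j = i
        · subst hj; simp [z]
        · rw [Function.update_of_ne hj]
          simp [z, hj]
      rw [e2]
      have hp : (0:ℤ) < 2 ^ n := by positivity
      have ep : (2:ℤ) ^ (n + 1) = 2 * 2 ^ n := by ring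
      have hc := H.c_mem n i
      have main : ∀ a b : ℤ, a ≤ b → (a = H.c n i ∧ b = H.c (n + 1) i ∨
          a = H.c (n + 1) i ∧ b = H.c n i) →
          (openGraph ω).Reachable (Function.update (z s) i a) (Function.update (z s) i b) := by
        intro a b hab hor
        apply reach_seg (openGraph ω) (fun k => Function.update (z s) i k) a b hab
        intro k hk1 hk2
        apply edge_open H hd ω n h (z s) (hzc s) i k
        · rw [abs_le]
          rcases hor with ⟨h1, h2⟩ | ⟨h1, h2⟩ <;> rcases H.c_succ n i with h3 | h3 <;>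
            constructor <;> omega
        · rw [abs_le]
          rcases hor with ⟨h1, h2⟩ | ⟨h1, h2⟩ <;> rcases H.c_succ n i with h3 | h3 <;>
            constructor <;> omega
        · rcases hor with ⟨h1, h2⟩ | ⟨h1, h2⟩ <;> rcases H.c_succ n i with h3 | h3 <;> omega
        · rcases hor with ⟨h1, h2⟩ | ⟨h1, h2⟩ <;> rcases H.c_succ n i with h3 | h3 <;> omega
      have fin : (openGraph ω).Reachable (Function.update (z s) i (H.c n i))
          (Function.update (z s) i (H.c (n + 1) i)) := by
        rcases le_total (H.c n i) (H.c (n + 1) i) with hle | hle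
        · exact main _ _ hle (Or.inl ⟨rfl, rfl⟩)
        · exact (main _ _ hle (Or.inr ⟨rfl, rfl⟩)).symm
      rw [← e1] at fin
      exact fin
  have : z Finset.univ = H.c (n + 1) := by funext j; simp [z]
  rw [← this]
  exact key _

/-- Percolation. -/
theorem hasInfiniteCluster_of (H : Hier d) (hd : 2 ≤ d) (ω : Config d) (N : ℕ)
    (h : ∀ n, N ≤ n → ∀ e : Edge d, InBox n e.1 → n ≤ kap H.w e.1 →
      (ω e = true ↔ Good H.w e.1)) : HasInfiniteCluster ω := by
  refine ⟨(openGraph ω).connectedComponentMk (H.c N), ?_⟩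
  have hreach : ∀ n, (openGraph ω).Reachable (H.c N) (H.c (N + n)) := by
    intro n
    induction n with
    | zero => exact SimpleGraph.Reachable.refl _
    | succ n ih => exact ih.trans (reach_centers H hd ω (N + n) (h (N + n) (by omega)))
  apply Set.infinite_of_injective_forall_mem (f := fun n : ℕ => H.c (N + n))
  · intro a b hab
    have h0 : 0 < d := by omega
    have h1 := H.w_c (N + a) ⟨0, h0⟩
    have h2 := H.w_c (N + b) ⟨0, h0⟩
    simp only at hab
    rw [hab, h2] at h1
    omega
  · intro n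
    rw [SimpleGraph.ConnectedComponent.mem_supp_iff]
    exact (SimpleGraph.ConnectedComponent.eq.2 (hreach n)).symm

/-- the candidate exit edges of the box of level `n+1` with lower corner `l` -/
noncomputable def exitSet (n : ℕ) (l : Fin d → ℤ) : Finset (Sym2 (Fin d → ℤ)) :=
  Finset.image (fun q : Fin d × Bool =>
    s(Function.update (fun j => l j + 2 ^ n) q.1 (if q.2 then l q.1 + 1 else
        l q.1 + 2 ^ (n + 1) - 1),
      Function.update (fun j => l j + 2 ^ n) q.1 (if q.2 then l q.1 else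
        l q.1 + 2 ^ (n + 1)))) Finset.univ

lemma card_exitSet_le (n : ℕ) (l : Fin d → ℤ) : (exitSet n l).card ≤ 2 * d := by
  unfold exitSet
  refine Finset.card_image_le.trans ?_
  simp [mul_comm]

/-- the open box of level `n+1` around the origin -/
def Hier.box (H : Hier d) (n : ℕ) : Set (Fin d → ℤ) :=
  {z | ∀ i, H.l (n + 1) i < z i ∧ z i < H.l (n + 1) i + 2 ^ (n + 1)}

lemma Hier.box_finite (H : Hier d) (n : ℕ) : (H.box n).Finite := by
  apply (Set.finite_Icc (H.l (n + 1)) (fun i => H.l (n + 1) i + 2 ^ (n + 1))).subset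
  intro z hz
  exact ⟨fun i => (hz i).1.le, fun i => (hz i).2.le⟩

lemma Hier.w_lt_of_mem_box (H : Hier d) {n : ℕ} {z : Fin d → ℤ} (hz : z ∈ H.box n) (i : Fin d) :
    H.w i (z i) < n + 1 := by
  by_contra hcon
  push Not at hcon
  rw [H.hw] at hcon
  obtain ⟨q, hq⟩ := hcon
  have h1 := (hz i).1
  have h2 := (hz i).2
  have hp : (0:ℤ) < 2 ^ (n + 1) := by positivity
  have q1 : 0 < q := by nlinarith
  have q2 : q < 1 := by nlinarith
  omega

/-- description of a boundary edge of the box -/
lemma boundary_edge (H : Hier d) {n : ℕ} {x y : Fin d → ℤ} (hx : x ∈ H.box n)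
    (hy : y ∉ H.box n) (hadj : (latticeGraph d).Adj x y) :
    ∃ i, (∀ j, j ≠ i → x j = y j) ∧
      ((y i = H.l (n + 1) i ∧ x i = H.l (n + 1) i + 1) ∨
       (y i = H.l (n + 1) i + 2 ^ (n + 1) ∧ x i = H.l (n + 1) i + 2 ^ (n + 1) - 1)) := by
  obtain ⟨i, hi1, hi2⟩ := adj_coord hadj
  refine ⟨i, hi1, ?_⟩
  have hxi := hx i
  have : ¬ (H.l (n + 1) i < y i ∧ y i < H.l (n + 1) i + 2 ^ (n + 1)) := by
    intro hcon
    apply hy
    intro j
    by_cases hj : j = i
    · rw [hj]; exact hcon
    · rw [← hi1 j hj]; exact hx j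
  rcases hi2 with h | h
  · right
    have : H.l (n + 1) i + 2 ^ (n + 1) ≤ y i := by
      by_contra hc; exact this ⟨by omega, by omega⟩
    constructor <;> omega
  · left
    have : y i ≤ H.l (n + 1) i := by
      by_contra hc; exact this ⟨by omega, by omega⟩
    constructor <;> omega

lemma boundary_level (H : Hier d) {n : ℕ} {x y : Fin d → ℤ} (hx : x ∈ H.box n)
    (hy : y ∉ H.box n) (hadj : (latticeGraph d).Adj x y) :
    ∃ i, (∀ j, j ≠ i → x j = y j) ∧ x i ≠ y i ∧ n + 1 ≤ H.w i (y i) := by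
  obtain ⟨i, hi1, hi2⟩ := boundary_edge H hx hy hadj
  refine ⟨i, hi1, ?_, ?_⟩
  · rcases hi2 with h | h <;> omega
  · rw [H.hw]
    rcases hi2 with h | h
    · rw [h.1]; simp
    · rw [h.1]; simp

lemma boundary_inBox (H : Hier d) {n : ℕ} {x y : Fin d → ℤ} (hx : x ∈ H.box n)
    (hy : y ∉ H.box n) (hadj : (latticeGraph d).Adj x y) : InBox n s(x, y) := by
  obtain ⟨i, hi1, hi2⟩ := boundary_edge H hx hy hadj
  intro z hz j
  have hz' : z = x ∨ z = y := by simpa using hz
  have hxj := hx j
  have hp : (0:ℤ) < 2 ^ (n + 1) := by positivity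
  apply H.between_abs n j
  · rcases hz' with h | h <;> rw [h]
    · omega
    · by_cases hj : j = i
      · subst hj; rcases hi2 with h | h <;> omega
      · rw [← hi1 j hj]; omega
  · rcases hz' with h | h <;> rw [h]
    · omega
    · by_cases hj : j = i
      · subst hj; rcases hi2 with h | h <;> omega
      · rw [← hi1 j hj]; omega

lemma boundary_kap (H : Hier d) {n : ℕ} {x y : Fin d → ℤ} (hx : x ∈ H.box n)
    (hy : y ∉ H.box n) (hadj : (latticeGraph d).Adj x y) : n ≤ kap H.w s(x, y) := by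
  obtain ⟨i, _, _, hi3⟩ := boundary_level H hx hy hadj
  rw [kap_mk]
  refine le_trans ?_ (le_max_right _ _)
  refine le_trans ?_ (le_lvl H.w _ i)
  omega

/-- the good boundary edges are exit edges -/
lemma exit_mem (H : Hier d) (hd : 2 ≤ d) {n : ℕ} {x y : Fin d → ℤ} (hx : x ∈ H.box n)
    (hy : y ∉ H.box n) (hadj : (latticeGraph d).Adj x y) (hg : Good H.w s(x, y)) :
    s(x, y) ∈ exitSet n (H.l (n + 1)) := by
  obtain ⟨i, hi1, hi2⟩ := boundary_edge H hx hy hadj
  have hyi : n + 1 ≤ H.w i (y i) := by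
    rw [H.hw]
    rcases hi2 with h | h
    · rw [h.1]; simp
    · rw [h.1]; simp
  rw [good_mk] at hg
  obtain ⟨m, hm⟩ := hg
  obtain ⟨j0, hj0⟩ : ∃ j : Fin d, j ≠ i := by
    have : Nontrivial (Fin d) := Fin.nontrivial_iff_two_le.2 hd
    exact exists_ne i
  have hm1 : n ≤ m := by
    have := (hm i).2.1
    omega
  have hcj : ∀ j, j ≠ i → x j = H.l (n + 1) j + 2 ^ n := by
    intro j hj
    have h1 := (hm j).2.2 (hi1 j hj)
    have h2 : n ≤ H.w j (x j) := le_trans hm1 h1
    rw [H.hw] at h2
    have h3 := H.dvd_of_le (Nat.le_succ n) j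
    have h4 : (2:ℤ) ^ n ∣ x j - H.l (n + 1) j := by
      have := dvd_sub h2 h3
      have e : x j - H.l n j - (H.l n.succ j - H.l n j) = x j - H.l (n + 1) j := by
        simp only [Nat.succ_eq_add_one]; ring
      rwa [e] at this
    obtain ⟨q, hq⟩ := h4
    have h5 := (hx j).1
    have h6 := (hx j).2
    have ep : (2:ℤ) ^ (n + 1) = 2 * 2 ^ n := by ring
    rw [ep] at h6
    have hp : (0:ℤ) < 2 ^ n := by positivity
    have q1 : 0 < q := by nlinarith
    have q2 : q < 2 := by nlinarith
    have q3 : q = 1 := by omega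
    rw [q3] at hq
    omega
  unfold exitSet
  rw [Finset.mem_image]
  rcases hi2 with h | h
  · refine ⟨(i, true), Finset.mem_univ _, ?_⟩
    simp only [if_true]
    congr 1
    · funext j
      by_cases hj : j = i
      · subst hj; rw [Function.update_self, h.2]
      · rw [Function.update_of_ne hj, hcj j hj]
    · funext j
      by_cases hj : j = i
      · subst hj; rw [Function.update_self, h.1]
      · rw [Function.update_of_ne hj, ← hi1 j hj, hcj j hj]
  · refine ⟨(i, false), Finset.mem_univ _, ?_⟩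
    simp only [Bool.false_eq_true, if_false]
    congr 1
    · funext j
      by_cases hj : j = i
      · subst hj; rw [Function.update_self, h.2]
      · rw [Function.update_of_ne hj, hcj j hj]
    · funext j
      by_cases hj : j = i
      · subst hj; rw [Function.update_self, h.1]
      · rw [Function.update_of_ne hj, ← hi1 j hj, hcj j hj]

/-- coordinates of an exit edge -/
lemma exit_coord {n : ℕ} {l : Fin d → ℤ} {x y : Fin d → ℤ} (h : s(x, y) ∈ exitSet n l) :
    ∃ i, x i ≠ y i ∧ ∀ j, j ≠ i → x j = l j + 2 ^ n ∧ y j = l j + 2 ^ n := by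
  unfold exitSet at h
  rw [Finset.mem_image] at h
  obtain ⟨⟨i, b⟩, _, h⟩ := h
  refine ⟨i, ?_⟩
  simp only [Sym2.eq_iff] at h
  rcases h with ⟨h1, h2⟩ | ⟨h1, h2⟩
  · rw [← h1, ← h2]
    refine ⟨?_, fun j hj => ?_⟩
    · rw [Function.update_self, Function.update_self]
      cases b <;> simp <;> omega
    · rw [Function.update_of_ne hj, Function.update_of_ne hj]
      exact ⟨rfl, rfl⟩
  · rw [← h1, ← h2]
    refine ⟨?_, fun j hj => ?_⟩
    · rw [Function.update_self, Function.update_self]
      cases b <;> simp <;> omega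
    · rw [Function.update_of_ne hj, Function.update_of_ne hj]
      exact ⟨rfl, rfl⟩

/-- exit sets of different levels are disjoint -/
lemma exit_inj (H : Hier d) (hd : 2 ≤ d) {n m : ℕ} {e : Sym2 (Fin d → ℤ)}
    (h1 : e ∈ exitSet n (H.l (n + 1))) (h2 : e ∈ exitSet m (H.l (m + 1))) : n = m := by
  induction e using Sym2.ind with
  | _ x y =>
    obtain ⟨i, hi1, hi2⟩ := exit_coord h1
    obtain ⟨i', hi1', hi2'⟩ := exit_coord h2
    have hii : i = i' := by
      by_contra hne
      apply hi1
      rw [(hi2' i hne).1, (hi2' i hne).2]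
    subst hii
    obtain ⟨j, hj⟩ : ∃ j : Fin d, j ≠ i := by
      have : Nontrivial (Fin d) := Fin.nontrivial_iff_two_le.2 hd
      exact exists_ne i
    have e1 : x j = H.c n j := (hi2 j hj).1
    have e2 : x j = H.c m j := (hi2' j hj).1
    have e3 := H.w_c n j
    have e4 := H.w_c m j
    rw [← e1] at e3
    rw [← e2] at e4
    omega

/-- the boxes exhaust `ℤ^d` -/
lemma eventually_mem_box (H : Hier d) (z : Fin d → ℤ) : ∀ᶠ n in Filter.atTop, z ∈ H.box n := by
  have h1 : ∀ i : Fin d, ∀ᶠ n in Filter.atTop,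
      H.l (n + 1) i < z i ∧ z i < H.l (n + 1) i + 2 ^ (n + 1) := by
    intro i
    let M := (Finset.Icc (-|z i|) |z i|).sup (H.w i)
    have hM : ∀ k, -|z i| ≤ k → k ≤ |z i| → H.w i k ≤ M := fun k h1 h2 =>
      Finset.le_sup (f := H.w i) (Finset.mem_Icc.2 ⟨h1, h2⟩)
    filter_upwards [Filter.eventually_ge_atTop M] with n hn
    have hl0 := H.hl0 (n + 1) i
    have hl1 := H.hl1 (n + 1) i
    have hz1 := le_abs_self (z i)
    have hz2 := neg_abs_le (z i)
    have hwl : n + 1 ≤ H.w i (H.l (n + 1) i) := by rw [H.hw]; simp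
    have hwu : n + 1 ≤ H.w i (H.l (n + 1) i + 2 ^ (n + 1)) := by rw [H.hw]; simp
    constructor
    · by_contra hc
      have := hM (H.l (n + 1) i) (by omega) (by omega)
      omega
    · by_contra hc
      have := hM (H.l (n + 1) i + 2 ^ (n + 1)) (by omega) (by omega)
      omega
  filter_upwards [Filter.eventually_all.2 h1] with n hn
  exact hn

/-- Absence of percolation. -/
theorem not_hasInfiniteCluster_of (H : Hier d) (hd : 2 ≤ d) (ω : Config d)
    (h : ∃ᶠ n in Filter.atTop, ∀ e : Edge d, InBox n e.1 → n ≤ kap H.w e.1 → ω e = true →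
      Good H.w e.1 ∧ e.1 ∉ exitSet n (H.l (n + 1))) : ¬ HasInfiniteCluster ω := by
  rintro ⟨C, hC⟩
  induction C using SimpleGraph.ConnectedComponent.ind with
  | _ z =>
    obtain ⟨n, hn, hz⟩ := (h.and_eventually (eventually_mem_box H z)).exists
    apply hC
    apply (H.box_finite n).subset
    intro y hy
    have hy' : (openGraph ω).Reachable z y := by
      rw [SimpleGraph.ConnectedComponent.mem_supp_iff] at hy
      exact (SimpleGraph.ConnectedComponent.eq.1 hy).symm
    obtain ⟨p⟩ := hy'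
    induction p with
    | nil => exact hz
    | @cons u v w huv p ih =>
      have hv : v ∈ H.box n := by
        by_contra hv
        obtain ⟨hadj, ho⟩ := huv
        have := hn ⟨s(u, v), hadj⟩ (boundary_inBox H hz hv hadj) (boundary_kap H hz hv hadj) ho
        exact this.2 (exit_mem H hd hz hv hadj this.1)
      exact ih (by
        intro hfin
        apply hC
        have : (openGraph ω).connectedComponentMk u = (openGraph ω).connectedComponentMk v :=
          SimpleGraph.ConnectedComponent.eq.2 huv.reachable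
        rw [this]
        exact hfin) hv (by
        rw [SimpleGraph.ConnectedComponent.mem_supp_iff]
        exact (SimpleGraph.ConnectedComponent.eq.2 ⟨p⟩).symm)

end Pool.Agent.Lib_helper90.Perc
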