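import Pool.Agent.Lib_helper90.Perc.Hier

/-!
# The random dyadic hierarchy coming from a Haar distributed point of `ℤ_2^d`
-/

set_option autoImplicit false

open MeasureTheory TopologicalSpace

namespace Pool.Agent.Lib_helper90.Perc

/-- Borel structure on the 2-adic integers -/
noncomputable local instance instMeasZ2 : MeasurableSpace ℤ_[2] := borel _

local instance instBorelZ2 : BorelSpace ℤ_[2] := ⟨rfl⟩

/-- the space of offsets -/
abbrev Off (d : ℕ) : Type := Fin d → ℤ_[2]

/-- Haar probability measure on the space of offsets -/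
noncomputable def haarOff (d : ℕ) : @Measure (Off d) (@MeasurableSpace.pi _ _ fun _ => instMeasZ2) :=
  Measure.pi fun _ => Measure.addHaarMeasure (⊤ : PositiveCompacts ℤ_[2])

lemma haarZ2_prob : IsProbabilityMeasure (Measure.addHaarMeasure (⊤ : PositiveCompacts ℤ_[2])) :=
  ⟨by simpa using Measure.addHaarMeasure_self (K₀ := (⊤ : PositiveCompacts ℤ_[2]))⟩

local instance instProbZ2 :
    IsProbabilityMeasure (Measure.addHaarMeasure (⊤ : PositiveCompacts ℤ_[2])) := haarZ2_prob

variable {d : ℕ}

local instance instProbOff : IsProbabilityMeasure (haarOff d) := by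
  unfold haarOff; infer_instance

local instance instHaarOff : (haarOff d).IsAddHaarMeasure := by
  unfold haarOff; infer_instance

lemma neBot_punctured : (nhdsWithin (0 : ℤ_[2]) {0}ᶜ).NeBot := by
  rw [← mem_closure_iff_nhdsWithin_neBot]
  rw [Metric.mem_closure_iff]
  intro ε hε
  obtain ⟨n, hn⟩ := exists_pow_lt_of_lt_one hε (show (1/2:ℝ) < 1 by norm_num)
  refine ⟨(2:ℤ_[2])^n, ?_, ?_⟩
  · simp
  · rw [dist_zero_left]
    have h2 : ‖(2:ℤ_[2])‖ = 1/2 := by
      have := PadicInt.norm_p (p := 2)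
      simpa using this
    rw [norm_pow, h2]
    exact hn

/-- almost surely, no coordinate of the offset is an integer -/
lemma ae_nonint : ∀ᵐ a ∂(haarOff d), ∀ (i : Fin d) (k : ℤ), (k : ℤ_[2]) + a i ≠ 0 := by
  rw [ae_all_iff]
  intro i
  rw [ae_all_iff]
  intro k
  have := neBot_punctured
  have h : haarOff d {a | a i = -(k : ℤ_[2])} = 0 := by
    unfold haarOff
    exact Measure.pi_hyperplane _ i _
  rw [ae_iff]
  convert h using 2
  ext a
  constructor
  · intro ha
    have ha' : ¬ ((k : ℤ_[2]) + a i ≠ 0) := ha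
    push Not at ha'
    exact eq_neg_of_add_eq_zero_right ha'
  · intro ha hcon
    apply hcon
    have ha' : a i = -(k : ℤ_[2]) := ha
    rw [ha']; ring

/-- the rulers associated with an offset -/
noncomputable def wOff (a : Off d) (i : Fin d) (k : ℤ) : ℕ := ((k : ℤ_[2]) + a i).valuation

/-- the corner points associated with an offset -/
noncomputable def lOff (a : Off d) (n : ℕ) (i : Fin d) : ℤ :=
  -((PadicInt.toZModPow n (a i)).val : ℤ)

lemma wOff_iff (a : Off d) (ha : ∀ (i : Fin d) (k : ℤ), (k : ℤ_[2]) + a i ≠ 0) (n : ℕ)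
    (i : Fin d) (k : ℤ) : n ≤ wOff a i k ↔ (2 ^ n : ℤ) ∣ k - lOff a n i := by
  unfold wOff lOff
  rw [← PadicInt.mem_span_pow_iff_le_valuation _ (ha i k), ← PadicInt.ker_toZModPow,
    RingHom.mem_ker, map_add, map_intCast, sub_neg_eq_add]
  have : NeZero (2 ^ n) := ⟨by positivity⟩
  have h1 : ((k : ZMod (2 ^ n)) + PadicInt.toZModPow n (a i)) =
      ((k + ((PadicInt.toZModPow n (a i)).val : ℤ) : ℤ) : ZMod (2 ^ n)) := by
    push_cast
    rw [ZMod.natCast_zmod_val]
  rw [h1, ZMod.intCast_zmod_eq_zero_iff_dvd]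
  push_cast
  rfl

/-- the hierarchy associated with a non-integer offset -/
noncomputable def hierOff (a : Off d) (ha : ∀ (i : Fin d) (k : ℤ), (k : ℤ_[2]) + a i ≠ 0) :
    Hier d where
  w := wOff a
  l := lOff a
  hl0 n i := by unfold lOff; omega
  hl1 n i := by
    unfold lOff
    have : NeZero (2 ^ n) := ⟨by positivity⟩
    have h := ZMod.val_lt (PadicInt.toZModPow n (a i))
    have h' : (((PadicInt.toZModPow n (a i)).val : ℕ) : ℤ) < ((2 ^ n : ℕ) : ℤ) := by
      exact_mod_cast h
    push_cast at h'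
    omega
  hw := wOff_iff a ha

lemma measurable_toZModPow (n : ℕ) (z : ZMod (2 ^ n)) :
    MeasurableSet {b : ℤ_[2] | PadicInt.toZModPow n b = z} := by
  have : NeZero (2 ^ n) := ⟨by positivity⟩
  have : {b : ℤ_[2] | PadicInt.toZModPow n b = z} =
      {b : ℤ_[2] | ‖b - (z.val : ℤ_[2])‖ ≤ (2:ℝ) ^ (-(n:ℤ))} := by
    ext b
    show PadicInt.toZModPow n b = z ↔ ‖b - (z.val : ℤ_[2])‖ ≤ (2:ℝ) ^ (-(n:ℤ))
    have h := PadicInt.norm_le_pow_iff_mem_span_pow (p := 2) (b - (z.val : ℤ_[2])) n
    push_cast at h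
    rw [h]
    have h2 := PadicInt.ker_toZModPow (p := 2) n
    push_cast at h2
    rw [← h2, RingHom.mem_ker, map_sub, map_natCast, ZMod.natCast_zmod_val, sub_eq_zero]
  rw [this]
  exact measurableSet_le (by fun_prop) (by fun_prop)

lemma measurable_lOff (n : ℕ) : Measurable (fun a : Off d => lOff a n) := by
  rw [measurable_pi_iff]
  intro i
  unfold lOff
  have : NeZero (2 ^ n) := ⟨by positivity⟩
  have h1 : Measurable (fun b : ℤ_[2] => -((PadicInt.toZModPow n b).val : ℤ)) := by
    apply measurable_to_countable'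
    intro k
    have : (fun b : ℤ_[2] => -((PadicInt.toZModPow n b).val : ℤ)) ⁻¹' {k} =
        ⋃ z : ZMod (2 ^ n), ({b : ℤ_[2] | PadicInt.toZModPow n b = z} ∩
          {b : ℤ_[2] | -(z.val : ℤ) = k}) := by
      ext b
      simp
    rw [this]
    exact MeasurableSet.iUnion fun z => (measurable_toZModPow n z).inter (MeasurableSet.const _)
  exact h1.comp (measurable_pi_apply i)

lemma measurable_valuation : Measurable (fun b : ℤ_[2] => b.valuation) := by
  apply measurable_to_countable'
  intro n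
  have : (fun b : ℤ_[2] => b.valuation) ⁻¹' {n} =
      ({b : ℤ_[2] | b = 0} ∩ {b : ℤ_[2] | 0 = n}) ∪
      ({b : ℤ_[2] | b = 0}ᶜ ∩ {b : ℤ_[2] | ‖b‖ = (2:ℝ) ^ (-(n:ℤ))}) := by
    ext b
    show b.valuation = n ↔ (b = 0 ∧ 0 = n) ∨ (¬ b = 0 ∧ ‖b‖ = (2:ℝ) ^ (-(n:ℤ)))
    by_cases hb : b = 0
    · subst hb; simp
    · have h1 := PadicInt.norm_eq_zpow_neg_valuation hb
      push_cast at h1
      simp only [hb, false_and, not_false_eq_true, true_and, false_or]
      rw [h1]
      constructor
      · intro h; rw [h]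
      · intro h
        have := zpow_right_injective₀ (show (0:ℝ) < 2 by norm_num) (by norm_num) h
        omega
  rw [this]
  have h0 : MeasurableSet {b : ℤ_[2] | b = 0} := measurableSet_singleton 0
  exact (h0.inter (MeasurableSet.const _)).union
    (h0.compl.inter (measurableSet_eq_fun (by fun_prop) (by fun_prop)))

lemma measurable_wOff (i : Fin d) (k : ℤ) : Measurable (fun a : Off d => wOff a i k) := by
  unfold wOff
  have h1 : Measurable (fun b : ℤ_[2] => (k : ℤ_[2]) + b) := (continuous_const_add _).measurable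
  exact measurable_valuation.comp (h1.comp (measurable_pi_apply i))

end Pool.Agent.Lib_helper90.Perc
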