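import Pool.Agent.Lib_helper90.Perc.Env

/-!
# Almost sure percolation, and the critical value
-/

set_option autoImplicit false

open MeasureTheory TopologicalSpace ProbabilityTheory

namespace Pool.Agent.Lib_helper90.Perc

attribute [local instance] instMeasZ2 instBorelZ2 instProbZ2 instProbOff instHaarOff

variable {d : ℕ}

/-- the vertices of the cube of radius `2^(n+1)` -/
noncomputable def cube (d n : ℕ) : Finset (Fin d → ℤ) :=
  Fintype.piFinset fun _ => Finset.Icc (-2 ^ (n + 1)) (2 ^ (n + 1))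

local instance instDecAdj : DecidableRel (latticeGraph d).Adj := fun x y =>
  inferInstanceAs (Decidable (∑ i, (x i - y i) ^ 2 = 1))

/-- the edges with both endpoints in the cube -/
noncomputable def boxEdges (d n : ℕ) : Finset (Edge d) :=
  ((cube d n ×ˢ cube d n).image (fun p => s(p.1, p.2))).subtype
    (fun e => e ∈ (latticeGraph d).edgeSet)

lemma mem_boxEdges {n : ℕ} {e : Edge d} (he : InBox n e.1) : e ∈ boxEdges d n := by
  obtain ⟨e, h⟩ := e
  unfold boxEdges
  rw [Finset.mem_subtype]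
  simp only at he ⊢
  induction e using Sym2.ind with
  | _ x y =>
    rw [Finset.mem_image]
    refine ⟨(x, y), ?_, rfl⟩
    rw [Finset.mem_product]
    unfold cube
    constructor
    · rw [Fintype.mem_piFinset]
      intro i
      exact Finset.mem_Icc.2 (abs_le.1 (he x (by simp) i))
    · rw [Fintype.mem_piFinset]
      intro i
      exact Finset.mem_Icc.2 (abs_le.1 (he y (by simp) i))

lemma card_boxEdges_le (d n : ℕ) : (boxEdges d n).card ≤ 2 ^ (2 * d * (n + 3)) := by
  unfold boxEdges
  rw [Finset.card_subtype]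
  refine (Finset.card_filter_le _ _).trans ?_
  refine Finset.card_image_le.trans ?_
  rw [Finset.card_product]
  have h1 : (cube d n).card ≤ 2 ^ (d * (n + 3)) := by
    unfold cube
    rw [Fintype.card_piFinset]
    simp only [Int.card_Icc, Finset.prod_const, Finset.card_univ, Fintype.card_fin]
    rw [mul_comm d, pow_mul]
    apply Nat.pow_le_pow_left
    have h2 : (2:ℤ) ^ (n + 1) + 1 - -2 ^ (n + 1) ≤ ((2 ^ (n + 3) : ℕ) : ℤ) := by
      push_cast
      have e1 : (2:ℤ) ^ (n + 3) = 4 * 2 ^ (n + 1) := by ring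
      have : (1:ℤ) ≤ 2 ^ (n + 1) := one_le_pow₀ (by norm_num)
      linarith
    exact Int.toNat_le.2 h2
  calc (cube d n).card * (cube d n).card ≤ 2 ^ (d * (n + 3)) * 2 ^ (d * (n + 3)) :=
        Nat.mul_le_mul h1 h1
    _ = 2 ^ (2 * d * (n + 3)) := by rw [← pow_add]; congr 1; ring

lemma labLaw_lt (e : Edge d) (t : unitInterval) :
    labLaw d {U | U e < t} = ENNReal.ofReal t := by
  have h := measurePreserving_eval_infinitePi
    (fun _ : Edge d => (volume : Measure unitInterval)) e
  have h2 := h.measure_preimage (measurableSet_Iio (a := t)).nullMeasurableSet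
  rw [unitInterval.volume_Iio] at h2
  exact h2

lemma labLaw_bad (d n : ℕ) :
    labLaw d {U | ∃ e ∈ boxEdges d n, U e < rate d n} ≤ (2⁻¹ : ENNReal) ^ (n + 1) := by
  have h1 : {U : Lab d | ∃ e ∈ boxEdges d n, U e < rate d n} =
      ⋃ e ∈ boxEdges d n, {U : Lab d | U e < rate d n} := by
    ext U; simp
  rw [h1]
  refine (measure_biUnion_finset_le _ _).trans ?_
  simp only [labLaw_lt, Finset.sum_const, nsmul_eq_mul]
  have h2 : ENNReal.ofReal (rate d n : ℝ) = (2⁻¹ : ENNReal) ^ (2 * d * (n + 3) + n + 1) := by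
    show ENNReal.ofReal ((1 / 2 : ℝ) ^ (2 * d * (n + 3) + n + 1)) = _
    rw [ENNReal.ofReal_pow (by norm_num)]
    congr 1
    rw [one_div, ENNReal.ofReal_inv_of_pos (by norm_num)]
    norm_num
  rw [h2]
  have h3 : ((boxEdges d n).card : ENNReal) ≤ 2 ^ (2 * d * (n + 3)) := by
    exact_mod_cast card_boxEdges_le d n
  calc ((boxEdges d n).card : ENNReal) * (2⁻¹) ^ (2 * d * (n + 3) + n + 1)
      ≤ 2 ^ (2 * d * (n + 3)) * (2⁻¹) ^ (2 * d * (n + 3) + n + 1) := by gcongr
    _ = (2 * 2⁻¹) ^ (2 * d * (n + 3)) * (2⁻¹) ^ (n + 1) := by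
        generalize 2 * d * (n + 3) = k
        rw [mul_pow, add_assoc, pow_add, mul_assoc]
    _ = (2⁻¹) ^ (n + 1) := by
        rw [ENNReal.mul_inv_cancel (by norm_num) (by norm_num), one_pow, one_mul]

lemma ae_lab (d : ℕ) : ∀ᵐ U ∂(labLaw d), ∀ᶠ n in Filter.atTop,
    ∀ e : Edge d, InBox n e.1 → rate d n ≤ U e := by
  have h := ae_eventually_notMem (μ := labLaw d)
    (s := fun n => {U | ∃ e ∈ boxEdges d n, U e < rate d n}) (by
      refine ne_top_of_le_ne_top ?_ (ENNReal.tsum_le_tsum (labLaw_bad d))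
      rw [ENNReal.tsum_geometric_add_one]
      exact ENNReal.mul_ne_top (by norm_num) (by norm_num))
  filter_upwards [h] with U hU
  filter_upwards [hU] with n hn e he
  by_contra hcon
  exact hn ⟨e, mem_boxEdges he, not_le.1 hcon⟩

/-- away from finitely many levels, there are no anomalies at the important edges -/
lemma conf_good {a : Off d} {U : Lab d} {n : ℕ} (hU : ∀ e : Edge d, InBox n e.1 → rate d n ≤ U e)
    (e : Edge d) (he : InBox n e.1) (hk : n ≤ kap (wOff a) e.1) :
    conf (a, U) e = true ↔ Good (wOff a) e.1 := by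
  have h : ¬ Anom a U e := by
    unfold Anom
    rw [not_lt]
    exact (rate_anti d hk).trans (hU e he)
  rw [conf_iff]
  simp only [h]
  tauto

lemma ae_fst {p : Off d → Prop} (h : ∀ᵐ a ∂(haarOff d), p a) :
    ∀ᵐ q ∂((haarOff d).prod (labLaw d)), p q.1 :=
  Measure.quasiMeasurePreserving_fst.ae h

lemma ae_snd {p : Lab d → Prop} (h : ∀ᵐ U ∂(labLaw d), p U) :
    ∀ᵐ q ∂((haarOff d).prod (labLaw d)), p q.2 :=
  Measure.quasiMeasurePreserving_snd.ae h

theorem law_percolates (hd : 2 ≤ d) : PercolatesAS (law d) := by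
  unfold PercolatesAS law
  rw [ae_map_iff measurable_conf.aemeasurable measurableSet_hasInfiniteCluster]
  filter_upwards [ae_fst ae_nonint, ae_snd (ae_lab d)] with q h1 h2
  obtain ⟨N, hN⟩ := Filter.eventually_atTop.1 h2
  exact hasInfiniteCluster_of (hierOff q.1 h1) hd _ N fun n hn e he hk =>
    conf_good (a := q.1) (U := q.2) (hN n hn) e he hk

end Pool.Agent.Lib_helper90.Perc
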