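import Pool.Agent.Lib_helper90.Perc.Percolates

/-!
# The critical value is one
-/

set_option autoImplicit false

open MeasureTheory TopologicalSpace ProbabilityTheory

namespace Pool.Agent.Lib_helper90.Perc

attribute [local instance] instMeasZ2 instBorelZ2 instProbZ2 instProbOff instHaarOff instDecAdj

variable {d : ℕ}

/-- law of independent coins with bias `p` -/
noncomputable def coinLaw (d : ℕ) (p : unitInterval) : Measure (Config d) :=
  Measure.infinitePi (fun _ : Edge d => bernoulliMeasure true false p)

instance instProbCoin (p : unitInterval) : IsProbabilityMeasure (coinLaw d p) := by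
  unfold coinLaw; infer_instance

/-- the coins close all exit edges of level `n` -/
def closedSet (a : Off d) (n : ℕ) : Set (Config d) :=
  {V | ∀ e : Edge d, e.1 ∈ exitSet n (lOff a (n + 1)) → V e = false}

/-- the exit edges as a finite set of edges -/
noncomputable def exitEdges (a : Off d) (n : ℕ) : Finset (Edge d) :=
  (exitSet n (lOff a (n + 1))).subtype (fun e => e ∈ (latticeGraph d).edgeSet)

lemma mem_exitEdges (a : Off d) (n : ℕ) (e : Edge d) :
    e ∈ exitEdges a n ↔ e.1 ∈ exitSet n (lOff a (n + 1)) := by
  unfold exitEdges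
  rw [Finset.mem_subtype]

lemma card_exitEdges_le (a : Off d) (n : ℕ) : (exitEdges a n).card ≤ 2 * d := by
  unfold exitEdges
  rw [Finset.card_subtype]
  exact (Finset.card_filter_le _ _).trans (card_exitSet_le _ _)

lemma closedSet_eq (a : Off d) (n : ℕ) :
    closedSet a n = ((exitEdges a n : Finset (Edge d)) : Set (Edge d)).pi
      (fun _ => ({false} : Set Bool)) := by
  ext V
  unfold closedSet
  simp only [Set.mem_pi, Finset.mem_coe, mem_exitEdges, Set.mem_singleton_iff]
  rfl

lemma measurableSet_closedSet (a : Off d) (n : ℕ) : MeasurableSet (closedSet a n) := by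
  rw [closedSet_eq]
  exact MeasurableSet.pi (Finset.countable_toSet _) fun _ _ => measurableSet_singleton _

/-- the probability that a coin shows `false` -/
noncomputable def qq (p : unitInterval) : ENNReal := bernoulliMeasure true false p {false}

lemma coinLaw_pi (p : unitInterval) (s : Finset (Edge d)) :
    coinLaw d p ((s : Set (Edge d)).pi (fun _ => ({false} : Set Bool))) = qq p ^ s.card := by
  unfold coinLaw
  rw [Measure.infinitePi_pi _ (fun _ _ => measurableSet_singleton _), Finset.prod_const]
  rfl

lemma qq_le_one (p : unitInterval) : qq p ≤ 1 := prob_le_one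

lemma qq_pos {p : unitInterval} (hp : p < 1) : 0 < qq p := by
  unfold qq
  rw [bernoulliMeasure_apply_of_notMem_of_mem p (measurableSet_singleton _) (by simp) (by simp)]
  rw [ENNReal.coe_pos]
  have h : (0:ℝ) < unitInterval.toNNReal (unitInterval.symm p) := by
    simpa using hp
  exact_mod_cast h

lemma closedSet_indep (p : unitInterval) (hd : 2 ≤ d) (a : Off d)
    (ha : ∀ (i : Fin d) (k : ℤ), (k : ℤ_[2]) + a i ≠ 0) :
    iIndepSet (closedSet a) (coinLaw d p) := by
  classical
  rw [iIndepSet_iff_meas_biInter (measurableSet_closedSet a)]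
  intro s
  have h1 : (⋂ i ∈ s, closedSet a i) =
      ((s.biUnion (exitEdges a) : Finset (Edge d)) : Set (Edge d)).pi
        (fun _ => ({false} : Set Bool)) := by
    ext V
    simp only [closedSet_eq, Set.mem_iInter, Set.mem_pi, Finset.mem_coe, Finset.mem_biUnion]
    constructor
    · rintro h e ⟨n, hn, he⟩
      exact h n hn e he
    · intro h n hn e he
      exact h e ⟨n, hn, he⟩
  rw [h1, coinLaw_pi, Finset.card_biUnion]
  · rw [Finset.prod_congr rfl (fun n _ => by rw [closedSet_eq, coinLaw_pi]),
      Finset.prod_pow_eq_pow_sum]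
  · intro n _ m _ hnm
    show Disjoint (exitEdges a n) (exitEdges a m)
    rw [Finset.disjoint_left]
    intro e h1 h2
    rw [mem_exitEdges] at h1 h2
    exact hnm (exit_inj (hierOff a ha) hd h1 h2)

lemma ae_coin {p : unitInterval} (hp : p < 1) (hd : 2 ≤ d) (a : Off d)
    (ha : ∀ (i : Fin d) (k : ℤ), (k : ℤ_[2]) + a i ≠ 0) :
    ∀ᵐ V ∂(coinLaw d p), ∃ᶠ n in Filter.atTop, V ∈ closedSet a n := by
  have h := measure_limsup_eq_one (measurableSet_closedSet a) (closedSet_indep p hd a ha) (by
    have h1 : ∀ n, qq p ^ (2 * d) ≤ coinLaw d p (closedSet a n) := by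
      intro n
      rw [closedSet_eq, coinLaw_pi]
      exact pow_le_pow_of_le_one zero_le (qq_le_one p) (card_exitEdges_le a n)
    rw [← top_le_iff]
    refine le_trans ?_ (ENNReal.tsum_le_tsum h1)
    rw [ENNReal.tsum_const_eq_top_of_ne_zero]
    exact (pow_ne_zero _ (qq_pos hp).ne'))
  have hm : MeasurableSet (Filter.limsup (closedSet a) Filter.atTop) :=
    MeasurableSet.measurableSet_limsup (measurableSet_closedSet a)
  have h2 := (prob_compl_eq_zero_iff hm).2 h
  rw [ae_iff]
  convert h2 using 2
  ext V
  rw [Set.mem_compl_iff, Filter.mem_limsup_iff_frequently_mem]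
  rfl

lemma measurableSet_joint :
    MeasurableSet {q : (Off d × Lab d) × Config d |
      ∃ᶠ n in Filter.atTop, q.2 ∈ closedSet q.1.1 n} := by
  have hn : ∀ n, MeasurableSet {q : (Off d × Lab d) × Config d | q.2 ∈ closedSet q.1.1 n} := by
    intro n
    have : {q : (Off d × Lab d) × Config d | q.2 ∈ closedSet q.1.1 n} =
        ⋂ e : Edge d, ({q : (Off d × Lab d) × Config d |
          e.1 ∈ exitSet n (lOff q.1.1 (n + 1))}ᶜ ∪
          {q : (Off d × Lab d) × Config d | q.2 e = false}) := by
      ext q
      unfold closedSet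
      simp only [Set.mem_iInter, Set.mem_union, Set.mem_compl_iff]
      show (∀ e : Edge d, e.1 ∈ exitSet n (lOff q.1.1 (n + 1)) → q.2 e = false) ↔
        ∀ e : Edge d, ¬ (e.1 ∈ exitSet n (lOff q.1.1 (n + 1))) ∨ q.2 e = false
      constructor
      · intro h e; by_cases h' : e.1 ∈ exitSet n (lOff q.1.1 (n + 1))
        · exact Or.inr (h e h')
        · exact Or.inl h'
      · intro h e h'
        rcases h e with h1 | h1
        · exact absurd h' h1
        · exact h1
    rw [this]
    apply MeasurableSet.iInter
    intro e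
    apply MeasurableSet.union
    · apply MeasurableSet.compl
      have h1 : Measurable (fun q : (Off d × Lab d) × Config d => lOff q.1.1 (n + 1)) :=
        (measurable_lOff (n + 1)).comp (measurable_fst.comp measurable_fst)
      exact h1 (Set.to_countable {l | e.1 ∈ exitSet n l}).measurableSet
    · have h2 : Measurable (fun q : (Off d × Lab d) × Config d => q.2 e) :=
        (measurable_pi_apply e).comp measurable_snd
      exact h2 (measurableSet_singleton false)
  have : {q : (Off d × Lab d) × Config d | ∃ᶠ n in Filter.atTop, q.2 ∈ closedSet q.1.1 n} =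
      Filter.limsup (fun n => {q : (Off d × Lab d) × Config d | q.2 ∈ closedSet q.1.1 n})
        Filter.atTop := by
    ext q
    rw [Filter.mem_limsup_iff_frequently_mem]
    rfl
  rw [this]
  exact MeasurableSet.measurableSet_limsup hn

/-- the thinning map -/
def thinMap (q : Config d × Config d) : Config d := fun e => q.1 e && q.2 e

lemma measurable_thinMap : Measurable (thinMap : Config d × Config d → Config d) := by
  rw [measurable_pi_iff]
  intro e
  have h1 : Measurable (fun q : Config d × Config d => (q.1 e, q.2 e)) :=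
    ((measurable_pi_apply e).comp measurable_fst).prodMk
      ((measurable_pi_apply e).comp measurable_snd)
  exact (measurable_of_countable (fun r : Bool × Bool => r.1 && r.2)).comp h1

lemma thinning_eq (p : unitInterval) (μ : Measure (Config d)) :
    thinning p μ = (μ.prod (coinLaw d p)).map thinMap := rfl

theorem thinning_no_percolation (hd : 2 ≤ d) {p : unitInterval} (hp : p < 1) :
    ∀ᵐ ω ∂(thinning p (law d)), ¬ HasInfiniteCluster ω := by
  have hm : MeasurableSet {ω : Config d | ¬ HasInfiniteCluster ω} :=
    measurableSet_hasInfiniteCluster.compl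
  rw [thinning_eq, ae_map_iff measurable_thinMap.aemeasurable hm]
  have h1 : (law d).prod (coinLaw d p) =
      (((haarOff d).prod (labLaw d)).prod (coinLaw d p)).map (Prod.map conf id) := by
    unfold law
    conv_lhs => rw [← Measure.map_id (μ := coinLaw d p)]
    rw [Measure.map_prod_map _ _ measurable_conf measurable_id]
  have hm2 : MeasurableSet {q : Config d × Config d | ¬ HasInfiniteCluster (thinMap q)} :=
    measurable_thinMap hm
  rw [h1, ae_map_iff (measurable_conf.prodMap measurable_id).aemeasurable hm2]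
  have h2 : ∀ᵐ q ∂(((haarOff d).prod (labLaw d)).prod (coinLaw d p)),
      q ∈ {q : (Off d × Lab d) × Config d |
        ∃ᶠ n in Filter.atTop, q.2 ∈ closedSet q.1.1 n} := by
    rw [Measure.ae_prod_mem_iff_ae_ae_mem measurableSet_joint]
    filter_upwards [ae_fst ae_nonint] with q hq
    exact ae_coin hp hd q.1 hq
  have h3 : ∀ᵐ q ∂(((haarOff d).prod (labLaw d)).prod (coinLaw d p)),
      ∀ (i : Fin d) (k : ℤ), (k : ℤ_[2]) + q.1.1 i ≠ 0 :=
    Measure.quasiMeasurePreserving_fst.ae (ae_fst ae_nonint)
  have h4 : ∀ᵐ q ∂(((haarOff d).prod (labLaw d)).prod (coinLaw d p)),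
      ∀ᶠ n in Filter.atTop, ∀ e : Edge d, InBox n e.1 → rate d n ≤ q.1.2 e :=
    Measure.quasiMeasurePreserving_fst.ae (ae_snd (ae_lab d))
  filter_upwards [h2, h3, h4] with q hq2 hq3 hq4
  apply not_hasInfiniteCluster_of (hierOff q.1.1 hq3) hd
  have hq2' : ∃ᶠ n in Filter.atTop, q.2 ∈ closedSet q.1.1 n := hq2
  refine (hq2'.and_eventually hq4).mono ?_
  rintro n ⟨hn1, hn2⟩ e he hk ho
  have ho' : (conf q.1 e && q.2 e) = true := ho
  rw [Bool.and_eq_true] at ho'
  refine ⟨(conf_good (a := q.1.1) (U := q.1.2) hn2 e he hk).1 ho'.1, fun hex => ?_⟩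
  have := hn1 e hex
  rw [this] at ho'
  exact absurd ho'.2 (by simp)

theorem criticalValue_law (hd : 2 ≤ d) : criticalValue (law d) = 1 := by
  unfold criticalValue
  apply csSup_eq_of_forall_le_of_forall_lt_exists_gt
  · exact ⟨0, 0, thinning_no_percolation hd (by norm_num), rfl⟩
  · rintro _ ⟨p, _, rfl⟩
    exact p.2.2
  · intro w hw
    have h0 : max 0 ((w + 1) / 2) < 1 := max_lt (by norm_num) (by linarith)
    refine ⟨max 0 ((w + 1) / 2), ⟨⟨max 0 ((w + 1) / 2), le_max_left _ _, h0.le⟩, ?_, rfl⟩, ?_⟩
    · exact thinning_no_percolation hd h0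
    · exact lt_of_lt_of_le (by linarith) (le_max_right _ _)

end Pool.Agent.Lib_helper90.Perc
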